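import Mathlib
import Pool.Agent.Work.MP_4bb68c_pr.Defs
import Pool.Agent.Work.MP_4bb68c_pr.Run
import Pool.Agent.Work.MP_4bb68c_pr.Grow
import Pool.Agent.Work.MP_4bb68c_pr.Weights

/-!
# Ballistic deposition in dimension one: basic facts
-/

open MeasureTheory ProbabilityTheory Filter Topology
open scoped NNReal ENNReal

namespace Pool.MP4bb68cOne

open Pool.MP4bb68c

/-- The site `x` of the one-dimensional lattice. -/
def pt (x : ℤ) : Site 1 := fun _ => x

@[simp] theorem pt_apply (x : ℤ) (i : Fin 1) : pt x i = x := rfl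

theorem pt_inj {x y : ℤ} : pt x = pt y ↔ x = y :=
  ⟨fun h => congrFun h 0, fun h => by rw [h]⟩

theorem eq_pt (z : Site 1) : z = pt (z 0) := by
  ext i
  rw [Fin.eq_zero i]
  rfl

theorem zero_eq_pt : (0 : Site 1) = pt 0 := rfl

theorem nb_pt_true (x : ℤ) (i : Fin 1) : nb (pt x) (i, true) = pt (x + 1) := by
  ext j
  rw [Fin.eq_zero i, Fin.eq_zero j]
  simp [nb]

theorem nb_pt_false (x : ℤ) (i : Fin 1) : nb (pt x) (i, false) = pt (x - 1) := by
  ext j
  rw [Fin.eq_zero i, Fin.eq_zero j]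
  simp [nb, sub_eq_add_neg]

theorem newHeight_pt_le_iff {h : Height 1} {x c : ℤ} :
    newHeight h (pt x) ≤ c ↔ h (pt x) + 1 ≤ c ∧ h (pt (x + 1)) ≤ c ∧ h (pt (x - 1)) ≤ c := by
  rw [newHeight_le_iff]
  constructor
  · rintro ⟨h1, h2⟩
    refine ⟨h1, ?_, ?_⟩
    · have := h2 (0, true)
      rwa [nb_pt_true] at this
    · have := h2 (0, false)
      rwa [nb_pt_false] at this
  · rintro ⟨h1, h2, h3⟩
    refine ⟨h1, ?_⟩
    rintro ⟨i, b⟩
    cases b with
    | true => rwa [nb_pt_true]
    | false => rwa [nb_pt_false]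

theorem newHeight_pt (h : Height 1) (x : ℤ) :
    newHeight h (pt x) = max (h (pt x) + 1) (max (h (pt (x + 1))) (h (pt (x - 1)))) := by
  apply le_antisymm
  · rw [newHeight_pt_le_iff]
    exact ⟨le_max_left _ _, (le_max_left _ _).trans (le_max_right _ _),
      (le_max_right _ _).trans (le_max_right _ _)⟩
  · have := newHeight_pt_le_iff.1 (le_refl (newHeight h (pt x)))
    exact max_le this.1 (max_le this.2.1 this.2.2)

theorem slotStep_pt (ξ : Site 1 → Bool) (h : Height 1) (x : ℤ) :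
    slotStep ξ h (pt x) = if ξ (pt x) = true then
      max (h (pt x) + 1) (max (h (pt (x + 1))) (h (pt (x - 1)))) else h (pt x) := by
  unfold slotStep
  rw [newHeight_pt]

/-! ### Expectations over random subsets -/

theorem ebin_insert {d : ℕ} (p : ℝ) {z : Site d} {S : Finset (Site d)} (hz : z ∉ S)
    (Φ : Finset (Site d) → ℝ) :
    ebin p (insert z S) Φ = p * ebin p S (fun A => Φ (insert z A)) + (1 - p) * ebin p S Φ := by
  unfold ebin
  rw [Finset.sum_powerset_insert hz, Finset.mul_sum, Finset.mul_sum, add_comm]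
  congr 1
  · refine Finset.sum_congr rfl fun A hA => ?_
    rw [Finset.mem_powerset] at hA
    have h1 : z ∉ A := fun h => hz (hA h)
    have h2 : insert z S \ insert z A = S \ A := by
      ext y
      simp only [Finset.mem_sdiff, Finset.mem_insert, not_or]
      constructor
      · rintro ⟨h3 | h3, h4, h5⟩
        · exact absurd h3 h4
        · exact ⟨h3, h5⟩
      · rintro ⟨h3, h4⟩
        exact ⟨Or.inr h3, fun h => hz (h ▸ h3), h4⟩
    rw [Finset.card_insert_of_notMem h1, h2, pow_succ]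
    ring
  · refine Finset.sum_congr rfl fun A hA => ?_
    rw [Finset.mem_powerset] at hA
    have h2 : (insert z S \ A).card = (S \ A).card + 1 := by
      have h3 : insert z S \ A = insert z (S \ A) := by
        rw [Finset.insert_sdiff_of_notMem _ (fun h => hz (hA h))]
      rw [h3, Finset.card_insert_of_notMem (fun h => hz (Finset.mem_sdiff.1 h).1)]
    rw [h2, pow_succ]
    ring

theorem ebin_le_of_le {d : ℕ} {p : ℝ} (h0 : 0 ≤ p) (h1 : p ≤ 1) {S : Finset (Site d)}
    {Φ : Finset (Site d) → ℝ} {M : ℝ} (hM : ∀ A ⊆ S, Φ A ≤ M) : ebin p S Φ ≤ M := by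
  have h2 := ebin_mono h0 h1 (S := S) (F := Φ) (G := fun _ => M * 1) (fun A hA => by
    simpa using hM A hA)
  rw [ebin_const_mul, ebin_one, mul_one] at h2
  exact h2

/-- First order expansion of the expectation over a `p`-random subset. -/
theorem ebin_le_lin {d : ℕ} {p : ℝ} (h0 : 0 ≤ p) (h1 : p ≤ 1) (S : Finset (Site d))
    (Φ : Finset (Site d) → ℝ) {M : ℝ} (hn : ∀ A ⊆ S, 0 ≤ Φ A) (hM : ∀ A ⊆ S, Φ A ≤ M) :
    ebin p S Φ ≤ Φ ∅ + p * ∑ z ∈ S, (Φ {z} - Φ ∅) + (S.card : ℝ) ^ 2 * p ^ 2 * M := by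
  classical
  induction S using Finset.induction_on generalizing Φ with
  | empty => simp [ebin]
  | insert z S hz ih =>
    rw [ebin_insert p hz]
    have hM0 : 0 ≤ M := (hn ∅ (Finset.empty_subset _)).trans (hM ∅ (Finset.empty_subset _))
    have a1 := ih Φ (fun A hA => hn A (hA.trans (Finset.subset_insert _ _)))
      (fun A hA => hM A (hA.trans (Finset.subset_insert _ _)))
    have a2 := ih (fun A => Φ (insert z A)) (fun A hA => hn _ (Finset.insert_subset_insert _ hA))
      (fun A hA => hM _ (Finset.insert_subset_insert _ hA))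
    rw [Finset.sum_insert hz, Finset.card_insert_of_notMem hz]
    have b1 : ∑ y ∈ S, (Φ (insert z {y}) - Φ (insert z ∅)) ≤ S.card * M := by
      have : ∑ y ∈ S, (Φ (insert z {y}) - Φ (insert z ∅)) ≤ ∑ _y ∈ S, M := by
        refine Finset.sum_le_sum fun y hy => ?_
        have c1 := hM (insert z {y}) (Finset.insert_subset_insert _
          (Finset.singleton_subset_iff.2 hy))
        have c2 := hn (insert z ∅) (Finset.insert_subset_insert _ (Finset.empty_subset _))
        linarith
      simpa [nsmul_eq_mul] using this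
    have b2 : -(S.card * M) ≤ ∑ y ∈ S, (Φ {y} - Φ ∅) := by
      have : ∑ _y ∈ S, (-M) ≤ ∑ y ∈ S, (Φ {y} - Φ ∅) := by
        refine Finset.sum_le_sum fun y hy => ?_
        have c1 := hM ∅ (Finset.empty_subset _)
        have c2 := hn {y} ((Finset.singleton_subset_iff.2 hy).trans (Finset.subset_insert _ _))
        linarith
      simpa [nsmul_eq_mul] using this
    have e0 : Φ (insert z ∅) = Φ {z} := rfl
    simp only [e0] at a2 b1
    set s1 := ∑ y ∈ S, (Φ (insert z {y}) - Φ {z}) with hs1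
    set s2 := ∑ y ∈ S, (Φ {y} - Φ ∅) with hs2
    set n : ℝ := (S.card : ℝ) with hn'
    have hn0 : 0 ≤ n := Nat.cast_nonneg _
    push_cast
    have k1 : p * ebin p S (fun A => Φ (insert z A)) ≤
        p * (Φ {z} + p * s1 + n ^ 2 * p ^ 2 * M) := mul_le_mul_of_nonneg_left a2 h0
    have k2 : (1 - p) * ebin p S Φ ≤ (1 - p) * (Φ ∅ + p * s2 + n ^ 2 * p ^ 2 * M) :=
      mul_le_mul_of_nonneg_left a1 (by linarith)
    have k3 : p ^ 2 * s1 ≤ p ^ 2 * (n * M) := mul_le_mul_of_nonneg_left b1 (by positivity)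
    have k4 : p ^ 2 * (-(n * M)) ≤ p ^ 2 * s2 := mul_le_mul_of_nonneg_left b2 (by positivity)
    have k5 : 0 ≤ p ^ 2 * M := by positivity
    nlinarith

end Pool.MP4bb68cOne
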