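import Mathlib
import Pool.Agent.Work.MP_4bb68c_pr.Defs
import Pool.Agent.Work.MP_4bb68c_pr.Run
import Pool.Agent.Work.MP_4bb68c_pr.Chain
import Pool.Agent.Work.MP_4bb68c_pr.Avg
import Pool.Agent.Work.MP_4bb68c_pr.Tight
import Pool.Agent.Work.MP_4bb68c_pr.Stat
import Pool.Agent.Work.MP_4bb68c_pr.Limit
import Pool.Agent.Work.MP_4bb68c_pr.Slope

/-!
# The growth inequality with an additive constant
-/

open MeasureTheory ProbabilityTheory Filter Topology
open scoped NNReal ENNReal

namespace Pool.MP4bb68cOne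

open Pool.MP4bb68c

variable {d : ℕ}

/-- If `0 ≤ a i ≤ V * (i * δ) + C` then the average of `a (i + k) - a i` is at most
`k * δ * V * (1 + k / N) + C * (k / N)`. -/
theorem avg_increment_le_add {a : ℕ → ℝ} {V δ C : ℝ} (hV : 0 ≤ V) (hδ : 0 ≤ δ)
    (h0 : ∀ i, 0 ≤ a i) (h1 : ∀ i, a i ≤ V * (i * δ) + C) {N : ℕ} (hN : 0 < N) (k : ℕ) :
    (N : ℝ)⁻¹ * ∑ i ∈ Finset.range N, (a (i + k) - a i) ≤
      (k * δ) * V * (1 + k / N) + C * (k / N) := by
  rw [sum_range_shift_sub]
  have h2 : ∑ j ∈ Finset.range k, (a (N + j) - a j) ≤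
      ∑ _j ∈ Finset.range k, (V * ((N + k) * δ) + C) := by
    refine Finset.sum_le_sum fun j hj => ?_
    have h3 := h1 (N + j)
    have h4 := h0 j
    have h5 : (j : ℝ) ≤ k := by exact_mod_cast (Finset.mem_range.1 hj).le
    have h6 : V * (((N + j : ℕ) : ℝ) * δ) ≤ V * ((N + k) * δ) := by
      push_cast
      apply mul_le_mul_of_nonneg_left _ hV
      apply mul_le_mul_of_nonneg_right _ hδ
      linarith
    linarith
  rw [Finset.sum_const, Finset.card_range, nsmul_eq_mul] at h2
  have hN' : (0 : ℝ) < N := by exact_mod_cast hN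
  calc (N : ℝ)⁻¹ * ∑ j ∈ Finset.range k, (a (N + j) - a j)
      ≤ (N : ℝ)⁻¹ * (k * (V * ((N + k) * δ) + C)) :=
        mul_le_mul_of_nonneg_left h2 (by positivity)
    _ = _ := by
        field_simp

/-- The growth inequality for a limit started from an additive function; the bound of the growth
may have an additive constant. -/
theorem growth_ineq_add {f : Height d} (hfa : IsAdd f) {q : ℕ} (hq : 0 < q) {V₀ : ℝ}
    (hV₀0 : 0 ≤ V₀) (hV₀ : ∀ n i, mh q n f i 0 ≤ V₀ * (i * (dl q n : ℝ)))
    {V C : ℝ} (hV0 : 0 ≤ V) (hV : ∀ n i, mh q n f i 0 ≤ V * (i * (dl q n : ℝ)) + C)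
    (c₀ : ℕ) (A : ℝ) (w w' : Site d →₀ ℝ) (hw : ∀ z, 0 ≤ w z) (hw' : ∀ z, 0 ≤ w' z)
    (hw1 : (w.sum fun _ a => a) = 1) (hw1' : (w'.sum fun _ a => a) = 1)
    (hA : ∀ (n : ℕ) (f : Height d), A + (w.sum fun z a => a * (f z : ℝ)) ≤
      ∫ h, (h 0 : ℝ) ∂(lawK d (List.replicate (c₀ * 2 ^ n) (dl q n)) f))
    (hA' : ∀ (n : ℕ) (f : Height d), (w'.sum fun z a => a * (f z : ℝ)) ≤
      ∫ h, (h 0 : ℝ) ∂(lawK d (List.replicate (c₀ * 2 ^ n) (dl q n)) f))
    {μ : Measure (Height d)} [IsProbabilityMeasure μ] (hlim' : IsLim q f μ) :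
    A + (w.sum fun z a => a * mean μ z) - (w'.sum fun z a => a * mean μ z) ≤
      V * (c₀ / q) - w'.sum fun z a => a * (f z : ℝ) := by
  classical
  have hint := integrable_height_limit hfa hq hV₀0 hV₀ hlim'
  set B : ℝ := w'.sum fun z a => a * (f z : ℝ) with hB
  -- limit of the truncated functionals
  have h1 : Tendsto (fun R : ℕ => ∫ g, psi A w w' R g ∂μ) atTop
      (𝓝 (A + (w.sum fun z a => a * mean μ z) - (w'.sum fun z a => a * mean μ z))) := by
    have h2 : Tendsto (fun R : ℕ => ∫ g, psi A w w' R g ∂μ) atTop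
        (𝓝 (∫ g, (A + lin w g - lin w' g) ∂μ)) := by
      refine tendsto_integral_of_dominated_convergence (fun g => |A| + |lin w g| + |lin w' g|)
        (fun R => (continuous_psi A w w' R).measurable.aestronglyMeasurable)
        (((integrable_const _).add (integrable_lin hint w).abs).add (integrable_lin hint w').abs)
        (fun R => Filter.Eventually.of_forall fun g => by
          rw [Real.norm_eq_abs]
          exact psi_abs_le' A w w' R g)
        (Filter.Eventually.of_forall fun g => tendsto_psi A w w' g)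
    have h3 : ∫ g, (A + lin w g - lin w' g) ∂μ =
        A + (w.sum fun z a => a * mean μ z) - (w'.sum fun z a => a * mean μ z) := by
      have ia : Integrable (fun g : Height d => A + lin w g) μ :=
        (integrable_const _).add (integrable_lin hint w)
      rw [integral_sub ia (integrable_lin hint w'),
        integral_add (integrable_const _) (integrable_lin hint w),
        integral_lin hint, integral_lin hint, integral_const, probReal_univ, one_smul]
      rfl
    rwa [h3] at h2
  -- the upper bound for the truncated functionals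
  have h4 : ∀ R : ℕ, ∫ g, psi A w w' R g ∂μ ≤ V * (c₀ / q) - B := by
    intro R
    have l1 := hlim' (psi A w w' R) (continuous_psi A w w' R) _ (psi_abs_le hw hw' hw1 hw1' R)
    have l2 : Tendsto (fun n : ℕ => V * (c₀ / q) * (1 + c₀ * (1 / 2) ^ n) +
        C * (c₀ * (1 / 2) ^ n) - B) atTop
        (𝓝 (V * (c₀ / q) * (1 + c₀ * 0) + C * (c₀ * 0) - B)) := by
      have := tendsto_pow_atTop_nhds_zero_of_lt_one (r := (1 / 2 : ℝ)) (by norm_num)
        (by norm_num)
      exact ((((this.const_mul (c₀ : ℝ)).const_add 1).const_mul _).add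
        ((this.const_mul (c₀ : ℝ)).const_mul C)).sub_const B
    rw [mul_zero, add_zero, mul_one, mul_zero, add_zero] at l2
    refine le_of_tendsto_of_tendsto l1 (l2.mono_left Nat.hyperfilter_le_atTop)
      (Filter.Eventually.of_forall fun n => ?_)
    have hN : (0 : ℝ) < NN n := by exact_mod_cast NN_pos n
    have hk : ((c₀ * 2 ^ n : ℕ) : ℝ) * (dl q n : ℝ) = c₀ / q := by
      unfold dl
      have : (q : ℝ) ≠ 0 := by exact_mod_cast hq.ne'
      push_cast
      field_simp
    have hkN : (((c₀ * 2 ^ n : ℕ) : ℝ)) / NN n = c₀ * (1 / 2) ^ n := by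
      unfold NN
      push_cast
      have : (4 : ℝ) ^ n = 2 ^ n * 2 ^ n := by
        rw [← mul_pow]
        norm_num
      rw [this, one_div, inv_pow]
      field_simp
    have hpsi_int : ∀ i, Integrable (fun h : Height d => psi A w w' R (seen h))
        (LL d q n i f) := fun i =>
      integrable_of_bdd_cont ((continuous_psi A w w' R).comp continuous_seen)
        (fun h => psi_abs_le hw hw' hw1 hw1' R _)
    have hlin_int : ∀ i (v : Site d →₀ ℝ), Integrable (lin v : Height d → ℝ)
        (LL d q n i f) := fun i v => integrable_lin (fun z => integrable_height _ _ _) v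
    change ∫ g, psi A w w' R g ∂(avg d q n f) ≤ _
    rw [integral_avg (continuous_psi A w w' R).measurable hpsi_int]
    -- pointwise inequality
    have hpt : ∀ g : Height d, psi A w w' R (seen g) + (lin w' g - g 0) ≤
        ∫ h, (h 0 : ℝ) ∂(LL d q n (c₀ * 2 ^ n) g) - g 0 := by
      intro g
      unfold psi
      split_ifs with h
      · rw [lin_seen hw1, lin_seen hw1']
        have := hA n g
        unfold LL lin
        linarith
      · have := hA' n g
        unfold LL lin
        linarith
    have hstep : ∀ i, ∫ h, psi A w w' R (seen h) ∂(LL d q n i f) ≤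
        (mh q n f (i + c₀ * 2 ^ n) 0 - mh q n f i 0) - B := by
      intro i
      have e1 : ∫ g, (psi A w w' R (seen g) + (lin w' g - g 0)) ∂(LL d q n i f) ≤
          mh q n f (i + c₀ * 2 ^ n) 0 - mh q n f i 0 := by
        rw [mh_sub_eq]
        exact integral_mono ((hpsi_int i).add ((hlin_int i w').sub (integrable_height _ _ _)))
          ((integrable_integral_height _ _ _ _ _ _).sub (integrable_height _ _ _)) hpt
      have e2 : ∫ g, (psi A w w' R (seen g) + (lin w' g - g 0)) ∂(LL d q n i f) =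
          ∫ h, psi A w w' R (seen h) ∂(LL d q n i f) +
            (∫ g, lin w' g ∂(LL d q n i f) - ∫ g, (g 0 : ℝ) ∂(LL d q n i f)) := by
        have ib : Integrable (fun g : Height d => lin w' g - (g 0 : ℝ)) (LL d q n i f) :=
          (hlin_int i w').sub (integrable_height _ _ _)
        rw [integral_add (hpsi_int i) ib, integral_sub (hlin_int i w') (integrable_height _ _ _)]
      have e3 : ∫ g, lin w' g ∂(LL d q n i f) - ∫ g, (g 0 : ℝ) ∂(LL d q n i f) = B := by
        rw [integral_lin (fun z => integrable_height _ _ _)]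
        have e4 : ∀ z, ∫ g, (g z : ℝ) ∂(LL d q n i f) =
            (f z : ℝ) + ∫ g, (g 0 : ℝ) ∂(LL d q n i f) := fun z =>
          mh_translate hfa q n i z
        have e5 : (w'.sum fun z a => a * ∫ g, (g z : ℝ) ∂(LL d q n i f)) =
            B + ∫ g, (g 0 : ℝ) ∂(LL d q n i f) := by
          have e6 : ∀ z a, a * ∫ g, (g z : ℝ) ∂(LL d q n i f) =
              a * (f z : ℝ) + a * ∫ g, (g 0 : ℝ) ∂(LL d q n i f) := by
            intro z a
            rw [e4 z]
            ring
          have e7 : (w'.sum fun z a => a * ∫ g, (g z : ℝ) ∂(LL d q n i f)) =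
              w'.sum fun z a => a * (f z : ℝ) + a * ∫ g, (g 0 : ℝ) ∂(LL d q n i f) :=
            Finsupp.sum_congr (fun z _ => e6 z (w' z))
          rw [e7, Finsupp.sum_add]
          congr 1
          unfold Finsupp.sum at hw1' ⊢
          rw [← Finset.sum_mul, hw1', one_mul]
        rw [e5]
        ring
      linarith
    have hinc := avg_increment_le_add (a := fun i => mh q n f i 0) hV0
      (NNReal.coe_nonneg (dl q n))
      (fun i => by
        have := le_mh q n f i 0
        rwa [hfa.zero, Int.cast_zero] at this) (hV n) (NN_pos n) (c₀ * 2 ^ n)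
    rw [hk, hkN] at hinc
    calc (NN n : ℝ)⁻¹ * ∑ i ∈ Finset.range (NN n), ∫ h, psi A w w' R (seen h) ∂(LL d q n i f)
        ≤ (NN n : ℝ)⁻¹ * ∑ i ∈ Finset.range (NN n),
          ((mh q n f (i + c₀ * 2 ^ n) 0 - mh q n f i 0) - B) :=
          mul_le_mul_of_nonneg_left (Finset.sum_le_sum fun i _ => hstep i) (by positivity)
      _ = (NN n : ℝ)⁻¹ * ∑ i ∈ Finset.range (NN n),
          (mh q n f (i + c₀ * 2 ^ n) 0 - mh q n f i 0) - B := by
          rw [Finset.sum_sub_distrib, Finset.sum_const, Finset.card_range, nsmul_eq_mul, mul_sub]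
          congr 1
          field_simp
      _ ≤ c₀ / q * V * (1 + c₀ * (1 / 2) ^ n) + C * (c₀ * (1 / 2) ^ n) - B := by linarith
      _ = V * (c₀ / q) * (1 + c₀ * (1 / 2) ^ n) + C * (c₀ * (1 / 2) ^ n) - B := by ring
  exact le_of_tendsto h1 (Filter.Eventually.of_forall h4)

end Pool.MP4bb68cOne
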