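import Mathlib
import Pool.Agent.Work.MP_4bb68c_d1.LTab

/-!
# The certificate for the lower bound: the check
-/

namespace Pool.MP4bb68cOne.LCert

/-- pattern and potential of the state `i` -/
def row (i : ℕ) : ℕ := (PL.getD (i / 40) 0 >>> (64 * (i % 40))) % 2 ^ 64

/-- the transitions of the state `i` -/
def trow (i : ℕ) : ℕ := (RL.getD (i / 40) 0 >>> (160 * (i % 40))) % 2 ^ 160

/-- the digit `y` of a code -/
def dgc (c y : ℕ) : ℕ := (c >>> (4 * y)) % 16

/-- the transition of the site `j` -/
def trc (c j : ℕ) : ℕ := (c >>> (16 * j)) % 65536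

/-- the gain of the maximum when a site with digit `x` is updated -/
def gn (x : ℕ) : ℕ := bif Nat.beq x 0 then 1 else 0

/-- conditions for the domination of the point `a` of the target with code `t`, placed at `o`, for
the update of the site `j` of the state with code `s` -/
def okc (s t j o a : ℕ) : Bool :=
  Nat.beq (dgc t a) 4 ||
  ((Nat.beq (o + a) (j + 1) && Nat.ble (gn (dgc s j) + dgc s j) (dgc t a + 1)) ||
  (((Nat.beq (o + a) j || Nat.beq (o + a) (j + 2)) &&
    Nat.ble (gn (dgc s j) + dgc s j) (dgc t a)) ||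
  (Nat.ble 1 (o + a) && (Nat.ble (o + a) 10 && (!(Nat.beq (dgc s (o + a - 1)) 4) &&
    Nat.ble (gn (dgc s j) + dgc s (o + a - 1)) (dgc t a))))))

/-- all points of the target -/
def okAll (s t j o : ℕ) : ℕ → Bool
  | 0 => true
  | a + 1 => okc s t j o a && okAll s t j o a

/-- the target of a transition -/
def tgt (w : ℕ) : ℕ := w % 4096

/-- the position of the target of a transition -/
def off (w : ℕ) : ℕ := w / 4096

/-- the check of one transition -/
def chkT (s j w : ℕ) : Bool :=
  Nat.beq (dgc s j) 4 || (Nat.blt (tgt w) K && okAll s (row (tgt w)) j (off w) 10)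

/-- the check of the transitions of the first `j` sites -/
def chkTs (s r : ℕ) : ℕ → Bool
  | 0 => true
  | j + 1 => chkT s j (trc r j) && chkTs s r j

/-- the potential of a code -/
def potc (c : ℕ) : ℕ := c / 2 ^ 40

/-- the gain of a transition -/
def gainc (s j w : ℕ) : ℕ :=
  bif Nat.beq (dgc s j) 4 then 0 else gn (dgc s j) * SC + potc (row (tgt w))

/-- the sum of the gains of the first `j` sites -/
def gains (s r : ℕ) : ℕ → ℕ
  | 0 => 0
  | j + 1 => gainc s j (trc r j) + gains s r j

/-- the number of points among the first `j` sites -/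
def cntc (s : ℕ) : ℕ → ℕ
  | 0 => 0
  | j + 1 => (bif Nat.beq (dgc s j) 4 then 0 else 1) + cntc s j

/-- is one of the first `j` digits zero? -/
def hasZero (s : ℕ) : ℕ → Bool
  | 0 => false
  | j + 1 => Nat.beq (dgc s j) 0 || hasZero s j

/-- the check of one state -/
def chkRow (s r : ℕ) : Bool :=
  hasZero s 10 && (Nat.ble (potc s) PM && (chkTs s r 10 &&
    Nat.ble (cntc s 10 * potc s + LL) (gains s r 10)))

/-- the check of the states `i < n` -/
def chkAll : ℕ → Bool
  | 0 => true
  | i + 1 => chkRow (row i) (trow i) && chkAll i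

/-- the check of the start state -/
def chkStart : Bool :=
  Nat.blt i0 K && (Nat.beq (dgc (row i0) 0) 0 && (Nat.beq (cntc (row i0) 10) 1))

theorem chkAll_K : chkAll K = true := by decide +kernel

theorem chkStart_eq : chkStart = true := by decide +kernel

/-! ### Consequences -/

theorem chkAll_imp {n : ℕ} (h : chkAll n = true) : ∀ i < n, chkRow (row i) (trow i) = true := by
  induction n with
  | zero => intro i hi; omega
  | succ n ih =>
    rw [chkAll, Bool.and_eq_true] at h
    intro i hi
    rcases Nat.lt_succ_iff_lt_or_eq.1 hi with h1 | h1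
    · exact ih h.2 i h1
    · rw [h1]; exact h.1

theorem hasZero_imp {s n : ℕ} (h : hasZero s n = true) : ∃ j < n, dgc s j = 0 := by
  induction n with
  | zero => simp [hasZero] at h
  | succ n ih =>
    rw [hasZero, Bool.or_eq_true] at h
    rcases h with h | h
    · exact ⟨n, Nat.lt_succ_self n, Nat.eq_of_beq_eq_true h⟩
    · obtain ⟨j, hj, h1⟩ := ih h
      exact ⟨j, Nat.lt_succ_of_lt hj, h1⟩

theorem chkTs_imp {s r n : ℕ} (h : chkTs s r n = true) : ∀ j < n, chkT s j (trc r j) = true := by
  induction n with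
  | zero => intro i hi; omega
  | succ n ih =>
    rw [chkTs, Bool.and_eq_true] at h
    intro i hi
    rcases Nat.lt_succ_iff_lt_or_eq.1 hi with h1 | h1
    · exact ih h.2 i h1
    · rw [h1]; exact h.1

theorem okAll_imp {s t j o n : ℕ} (h : okAll s t j o n = true) :
    ∀ a < n, okc s t j o a = true := by
  induction n with
  | zero => intro i hi; omega
  | succ n ih =>
    rw [okAll, Bool.and_eq_true] at h
    intro i hi
    rcases Nat.lt_succ_iff_lt_or_eq.1 hi with h1 | h1
    · exact ih h.2 i h1
    · rw [h1]; exact h.1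

/-- the digit `y` of the state `i` -/
def dg (i y : ℕ) : ℕ := dgc (row i) y

/-- the potential of the state `i` -/
def pot (i : ℕ) : ℕ := potc (row i)

/-- the target of the update of the site `j` of the state `i` -/
def tg (i j : ℕ) : ℕ := tgt (trc (trow i) j)

/-- the position of the target of the update of the site `j` of the state `i` -/
def of (i j : ℕ) : ℕ := off (trc (trow i) j)

/-- the points of the state `i` -/
def pts (i : ℕ) : Finset ℕ := (Finset.range 10).filter fun j => dg i j ≠ 4

theorem mem_pts {i j : ℕ} : j ∈ pts i ↔ j < 10 ∧ dg i j ≠ 4 := by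
  unfold pts
  rw [Finset.mem_filter, Finset.mem_range]

theorem gains_eq (s r n : ℕ) : gains s r n =
    ∑ j ∈ (Finset.range n).filter (fun j => dgc s j ≠ 4),
      (gn (dgc s j) * SC + potc (row (tgt (trc r j)))) := by
  induction n with
  | zero => simp [gains]
  | succ n ih =>
    rw [gains, ih, Finset.range_add_one, Finset.filter_insert, gainc]
    by_cases h : dgc s n = 4
    · rw [if_neg (by simpa using h), h]
      have : Nat.beq 4 4 = true := rfl
      rw [this, cond_true, zero_add]
    · have : Nat.beq (dgc s n) 4 = false := by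
        rw [Bool.eq_false_iff]
        intro h1
        exact h (Nat.eq_of_beq_eq_true h1)
      rw [if_pos h, this, cond_false, Finset.sum_insert]
      simp

theorem cntc_eq (s n : ℕ) : cntc s n = ((Finset.range n).filter (fun j => dgc s j ≠ 4)).card := by
  induction n with
  | zero => simp [cntc]
  | succ n ih =>
    rw [cntc, ih, Finset.range_add_one, Finset.filter_insert]
    by_cases h : dgc s n = 4
    · rw [if_neg (by simpa using h), h]
      have : Nat.beq 4 4 = true := rfl
      rw [this, cond_true, zero_add]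
    · have : Nat.beq (dgc s n) 4 = false := by
        rw [Bool.eq_false_iff]
        intro h1
        exact h (Nat.eq_of_beq_eq_true h1)
      rw [if_pos h, this, cond_false, Finset.card_insert_of_notMem, add_comm]
      simp

theorem gn_eq (x : ℕ) : gn x = if x = 0 then 1 else 0 := by
  unfold gn
  by_cases h : x = 0
  · rw [if_pos h, h]; rfl
  · have : Nat.beq x 0 = false := by
      rw [Bool.eq_false_iff]
      intro h1
      exact h (Nat.eq_of_beq_eq_true h1)
    rw [if_neg h, this, cond_false]

theorem exists_zero {i : ℕ} (hi : i < K) : ∃ j ∈ pts i, dg i j = 0 := by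
  have h := chkAll_imp chkAll_K i hi
  rw [chkRow, Bool.and_eq_true] at h
  obtain ⟨j, hj, h1⟩ := hasZero_imp h.1
  exact ⟨j, mem_pts.2 ⟨hj, by unfold dg; omega⟩, h1⟩

theorem pot_le {i : ℕ} (hi : i < K) : pot i ≤ PM := by
  have h := chkAll_imp chkAll_K i hi
  rw [chkRow, Bool.and_eq_true, Bool.and_eq_true] at h
  exact Nat.le_of_ble_eq_true h.2.1

theorem tg_lt {i j : ℕ} (hi : i < K) (hj : j ∈ pts i) : tg i j < K := by
  have h := chkAll_imp chkAll_K i hi
  rw [chkRow, Bool.and_eq_true, Bool.and_eq_true, Bool.and_eq_true] at h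
  have h1 := chkTs_imp h.2.2.1 j (mem_pts.1 hj).1
  rw [chkT, Bool.or_eq_true, Bool.and_eq_true] at h1
  rcases h1 with h1 | h1
  · exact absurd (Nat.eq_of_beq_eq_true h1) (mem_pts.1 hj).2
  · have := h1.1
    unfold Nat.blt at this
    exact Nat.le_of_ble_eq_true this

/-- The domination of the target by the updated state. -/
theorem dom {i j a : ℕ} (hi : i < K) (hj : j ∈ pts i) (ha : a ∈ pts (tg i j)) :
    (of i j + a = j + 1 ∧ gn (dg i j) + dg i j ≤ dg (tg i j) a + 1) ∨
    ((of i j + a = j ∨ of i j + a = j + 2) ∧ gn (dg i j) + dg i j ≤ dg (tg i j) a) ∨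
    (∃ y ∈ pts i, of i j + a = y + 1 ∧ gn (dg i j) + dg i y ≤ dg (tg i j) a) := by
  have h := chkAll_imp chkAll_K i hi
  rw [chkRow, Bool.and_eq_true, Bool.and_eq_true, Bool.and_eq_true] at h
  have h1 := chkTs_imp h.2.2.1 j (mem_pts.1 hj).1
  rw [chkT, Bool.or_eq_true, Bool.and_eq_true] at h1
  rcases h1 with h1 | h1
  · exact absurd (Nat.eq_of_beq_eq_true h1) (mem_pts.1 hj).2
  have h2 := okAll_imp h1.2 a (mem_pts.1 ha).1
  unfold okc at h2
  simp only [Bool.or_eq_true, Bool.and_eq_true, Nat.beq_eq, Nat.ble_eq, Bool.not_eq_true'] at h2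
  rcases h2 with h2 | ⟨h2, h3⟩ | ⟨h2, h3⟩ | ⟨h2, h3, h4, h5⟩
  · exact absurd h2 (mem_pts.1 ha).2
  · exact Or.inl ⟨h2, h3⟩
  · exact Or.inr (Or.inl ⟨h2, h3⟩)
  · refine Or.inr (Or.inr ⟨of i j + a - 1, ?_, ?_, h5⟩)
    · rw [mem_pts]
      refine ⟨?_, ?_⟩
      · unfold of; omega
      · intro h6
        unfold dg of at h6
        rw [h6] at h4
        exact absurd h4 (by decide)
    · unfold of; omega

theorem growth {i : ℕ} (hi : i < K) : (pts i).card * pot i + LL ≤
    ∑ j ∈ pts i, (gn (dg i j) * SC + pot (tg i j)) := by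
  have h := chkAll_imp chkAll_K i hi
  rw [chkRow, Bool.and_eq_true, Bool.and_eq_true, Bool.and_eq_true] at h
  have h1 := Nat.le_of_ble_eq_true h.2.2.2
  rw [gains_eq, cntc_eq] at h1
  exact h1

theorem start_lt : i0 < K := by
  have h := chkStart_eq
  rw [chkStart, Bool.and_eq_true] at h
  have := h.1
  unfold Nat.blt at this
  exact Nat.le_of_ble_eq_true this

theorem pts_start : pts i0 = {0} := by
  have h := chkStart_eq
  rw [chkStart, Bool.and_eq_true, Bool.and_eq_true] at h
  have h1 : dg i0 0 = 0 := Nat.eq_of_beq_eq_true h.2.1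
  have h2 : (pts i0).card = 1 := by
    have := Nat.eq_of_beq_eq_true h.2.2
    rw [cntc_eq] at this
    exact this
  obtain ⟨x, hx⟩ := Finset.card_eq_one.1 h2
  have h3 : (0 : ℕ) ∈ pts i0 := mem_pts.2 ⟨by omega, by rw [h1]; omega⟩
  rw [hx, Finset.mem_singleton] at h3
  rw [hx, ← h3]

theorem dg_start : dg i0 0 = 0 := by
  have h := chkStart_eq
  rw [chkStart, Bool.and_eq_true, Bool.and_eq_true] at h
  exact Nat.eq_of_beq_eq_true h.2.1

end Pool.MP4bb68cOne.LCert
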