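import Mathlib
import Pool.Agent.Work.MP_4bb68c_d1.Basic
import Pool.Agent.Work.MP_4bb68c_d1.LChk

/-!
# Windows of the dual process: one slot
-/

open MeasureTheory ProbabilityTheory Filter Topology
open scoped NNReal ENNReal

namespace Pool.MP4bb68cOne

open Pool.MP4bb68c LCert

attribute [local irreducible] row trow K SC LL PM i0 dg pot tg of pts gn

/-- The value functional of the state `i` placed at `p`. -/
noncomputable def val (i : ℕ) (p : ℤ) (h : Height 1) : ℝ :=
  if hs : (pts i).Nonempty then
    (pts i).sup' hs (fun j => (h (pt (p + j)) : ℝ) - dg i j)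
  else 0

theorem le_val {i j : ℕ} (hj : j ∈ pts i) (p : ℤ) (h : Height 1) :
    (h (pt (p + j)) : ℝ) - dg i j ≤ val i p h := by
  unfold val
  rw [dif_pos ⟨j, hj⟩]
  exact Finset.le_sup' (fun j : ℕ => (h (pt (p + j)) : ℝ) - dg i j) hj

theorem val_le {i : ℕ} (hs : (pts i).Nonempty) {p : ℤ} {h : Height 1} {c : ℝ}
    (hc : ∀ j ∈ pts i, (h (pt (p + j)) : ℝ) - dg i j ≤ c) : val i p h ≤ c := by
  unfold val
  rw [dif_pos hs]
  exact Finset.sup'_le hs _ hc

theorem measurable_val' (i : ℕ) (p : ℤ) : Measurable (val i p) := by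
  unfold val
  by_cases hs : (pts i).Nonempty
  · simp only [dif_pos hs]
    have := Finset.measurable_sup' hs (f := fun j (h : Height 1) =>
      (h (pt (p + j)) : ℝ) - dg i j) (fun j _ => (measurable_height_real _).sub_const _)
    convert this using 1
    ext h
    rw [Finset.sup'_apply]
  · simp only [dif_neg hs]
    exact measurable_const

theorem monotone_val' (i : ℕ) (p : ℤ) : Monotone (val i p) := by
  intro h h' H
  by_cases hs : (pts i).Nonempty
  · refine val_le hs fun j hj => ?_
    have h1 := le_val hj p h'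
    have h2 := (monotone_height_real (pt (p + j))) H
    simp only at h2
    linarith
  · unfold val
    rw [dif_neg hs, dif_neg hs]

theorem nonempty_pts {i : ℕ} (hi : i < K) : (pts i).Nonempty := by
  obtain ⟨j, hj, _⟩ := exists_zero hi
  exact ⟨j, hj⟩

/-- The update of a site of the window. -/
theorem val_slot {i j : ℕ} (hi : i < K) (hj : j ∈ pts i) (p : ℤ) {ξ : Site 1 → Bool}
    (hξ : ξ (pt (p + j)) = true) (h : Height 1) :
    (gn (dg i j) : ℝ) + val (tg i j) (p + of i j - 1) h ≤ val i p (slotStep ξ h) := by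
  have hne := nonempty_pts (tg_lt hi hj)
  have key : val (tg i j) (p + of i j - 1) h ≤ val i p (slotStep ξ h) - gn (dg i j) := by
    refine val_le hne fun a ha => ?_
    have hz := slotStep_pt ξ h (p + j)
    rw [if_pos hξ] at hz
    have hval := le_val hj p (slotStep ξ h)
    rcases dom hi hj ha with ⟨h1, h2⟩ | ⟨h1, h2⟩ | ⟨y, hy, h1, h2⟩
    · have e : p + (of i j : ℤ) - 1 + a = p + j := by omega
      rw [e]
      have h3 : h (pt (p + j)) + 1 ≤ slotStep ξ h (pt (p + j)) := by
        rw [hz]; exact le_max_left _ _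
      have h4 : ((h (pt (p + j)) : ℤ) : ℝ) + 1 ≤ (slotStep ξ h (pt (p + j)) : ℤ) := by
        exact_mod_cast h3
      have h5 : (gn (dg i j) : ℝ) + dg i j ≤ dg (tg i j) a + 1 := by exact_mod_cast h2
      linarith
    · have h5 : (gn (dg i j) : ℝ) + dg i j ≤ dg (tg i j) a := by exact_mod_cast h2
      have h3 : h (pt (p + of i j - 1 + a)) ≤ slotStep ξ h (pt (p + j)) := by
        rw [hz]
        rcases h1 with h1 | h1
        · have e : p + (of i j : ℤ) - 1 + a = p + j - 1 := by omega
          rw [e]
          exact (le_max_right _ _).trans (le_max_right _ _)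
        · have e : p + (of i j : ℤ) - 1 + a = p + j + 1 := by omega
          rw [e]
          exact (le_max_left _ _).trans (le_max_right _ _)
      have h4 : ((h (pt (p + of i j - 1 + a)) : ℤ) : ℝ) ≤ (slotStep ξ h (pt (p + j)) : ℤ) := by
        exact_mod_cast h3
      linarith
    · have h5 : (gn (dg i j) : ℝ) + dg i y ≤ dg (tg i j) a := by exact_mod_cast h2
      have e : p + (of i j : ℤ) - 1 + a = p + y := by omega
      rw [e]
      have h3 : h (pt (p + y)) ≤ slotStep ξ h (pt (p + y)) := le_slotStep ξ h _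
      have h4 : ((h (pt (p + y)) : ℤ) : ℝ) ≤ (slotStep ξ h (pt (p + y)) : ℤ) := by
        exact_mod_cast h3
      have h6 := le_val hy p (slotStep ξ h)
      linarith
  linarith

/-- The sites of the window at `p`. -/
def win10 (p : ℤ) : Finset (Site 1) := (Finset.range 10).image (fun j : ℕ => pt (p + j))

theorem pt_add_inj (p : ℤ) : Function.Injective (fun j : ℕ => pt (p + j)) := by
  intro a b hab
  have := pt_inj.1 hab
  omega

theorem card_win10 (p : ℤ) : (win10 p).card = 10 := by
  unfold win10
  rw [Finset.card_image_of_injective _ (pt_add_inj p), Finset.card_range]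

theorem mem_win10 {p : ℤ} {j : ℕ} (hj : j < 10) : pt (p + j) ∈ win10 p :=
  Finset.mem_image_of_mem _ (Finset.mem_range.2 hj)

theorem ebin_single {d : ℕ} (p : ℝ) {S : Finset (Site d)} {z : Site d} (hz : z ∈ S) :
    ebin p S (fun A => if A = {z} then 1 else 0) = p * (1 - p) ^ (S.card - 1) := by
  unfold ebin
  rw [Finset.sum_eq_single {z}]
  · rw [Finset.card_singleton, pow_one,
      Finset.card_sdiff_of_subset (Finset.singleton_subset_iff.2 hz), Finset.card_singleton]
    simp
  · intro A _ hA
    simp [hA]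
  · intro h
    exact absurd (Finset.mem_powerset.2 (Finset.singleton_subset_iff.2 hz)) h

theorem ebin_expand {d : ℕ} {ι : Type*} (p : ℝ) {S : Finset (Site d)} (s : Finset ι)
    (z : ι → Site d) (hz : ∀ j ∈ s, z j ∈ S) (c : ℝ) (D : ι → ℝ) :
    ebin p S (fun A => c * 1 + ∑ j ∈ s, D j * (if A = {z j} then 1 else 0)) =
      c + ∑ j ∈ s, (p * (1 - p) ^ (S.card - 1)) * D j := by
  rw [ebin_add, ebin_const_mul, ebin_one, ebin_sum, mul_one]
  congr 1
  refine Finset.sum_congr rfl fun j hj => ?_
  rw [ebin_const_mul, ebin_single p (hz j hj)]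
  ring

theorem expand_le {d : ℕ} {ι : Type*} (s : Finset ι)
    (z : ι → Site d) (hinj : ∀ a b, z a = z b → a = b) (c : ℝ) (D : ι → ℝ) (A : Finset (Site d))
    (t : ℝ) (h0 : c ≤ t) (h1 : ∀ j ∈ s, A = {z j} → c + D j ≤ t) :
    c * 1 + ∑ j ∈ s, D j * (if A = {z j} then 1 else 0) ≤ t := by
  by_cases hex : ∃ j ∈ s, A = {z j}
  · obtain ⟨j, hj, hAj⟩ := hex
    rw [Finset.sum_eq_single j]
    · rw [if_pos hAj]
      have := h1 j hj hAj
      linarith
    · intro b _ hb
      rw [if_neg, mul_zero]
      rw [hAj]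
      intro h2
      exact hb (hinj _ _ (Finset.singleton_injective h2)).symm
    · intro h2
      exact absurd hj h2
  · rw [Finset.sum_eq_zero]
    · linarith
    · intro j hj
      rw [if_neg (fun h2 => hex ⟨j, hj, h2⟩), mul_zero]

/-- The probability that exactly one given site of the window is updated. -/
noncomputable def rr (p : ℝ) : ℝ := p * (1 - p) ^ 9

/-- The expected value after one slot. -/
theorem val_step_ge {i : ℕ} (hi : i < K) (p : ℤ) (ℓ : ℝ≥0) (h : Height 1) :
    val i p h + ∑ j ∈ pts i, rr (1 - Real.exp (-ℓ)) *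
      ((gn (dg i j) : ℝ) + val (tg i j) (p + of i j - 1) h - val i p h) ≤
      ∫ ξ, val i p (slotStep ξ h) ∂(siteLaw 1 ℓ) := by
  have e1 := ebin_expand (1 - Real.exp (-ℓ)) (S := win10 p) (pts i) (fun j : ℕ => pt (p + j))
    (fun j hj => mem_win10 (mem_pts.1 hj).1) (val i p h)
    (fun j => (gn (dg i j) : ℝ) + val (tg i j) (p + of i j - 1) h - val i p h)
  rw [card_win10] at e1
  have e2 := integral_filter ℓ (win10 p) (fun A => val i p h * 1 + ∑ j ∈ pts i,
    ((gn (dg i j) : ℝ) + val (tg i j) (p + of i j - 1) h - val i p h) *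
      (if A = {pt (p + j)} then 1 else 0))
  unfold rr
  refine le_trans (le_of_eq (e1.symm.trans e2.symm)) ?_
  refine integral_mono (integrable_filter ℓ (win10 p) (fun A => val i p h * 1 + ∑ j ∈ pts i,
    ((gn (dg i j) : ℝ) + val (tg i j) (p + of i j - 1) h - val i p h) *
      (if A = {pt (p + j)} then 1 else 0)))
    (integrable_siteLaw_of_mono (measurable_val' i p) (monotone_val' i p) ℓ h) ?_
  intro ξ
  refine expand_le (pts i) (fun j : ℕ => pt (p + j)) (fun a b hab => pt_add_inj p hab)
    (val i p h) (fun j => (gn (dg i j) : ℝ) + val (tg i j) (p + of i j - 1) h - val i p h) _ _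
    (monotone_val' i p (le_slotStep ξ h)) ?_
  intro j hj hA
  have hξ : ξ (pt (p + j)) = true := by
    have h1 : pt (p + j) ∈ (win10 p).filter (fun z => ξ z = true) := by
      rw [hA]; exact Finset.mem_singleton_self _
    exact (Finset.mem_filter.1 h1).2
  have := val_slot hi hj p hξ h
  linarith

end Pool.MP4bb68cOne
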