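import Mathlib
import Pool.Agent.Work.MP_4bb68c_pr.Chain
import Pool.Agent.Work.MP_4bb68c_d1.Basic
import Pool.Agent.Work.MP_4bb68c_d1.LChk
import Pool.Agent.Work.MP_4bb68c_d1.LStep

/-!
# Lower bounds by convex combinations of the initial heights
-/

open MeasureTheory ProbabilityTheory Filter Topology
open scoped NNReal ENNReal

namespace Pool.MP4bb68cOne

open Pool.MP4bb68c LCert

attribute [local irreducible] row trow K SC LL PM i0 dg pot tg of pts gn

/-- The probability that exactly one given site of the window is updated in a slot of length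
`1 / q`. -/
noncomputable def rq (q : ℕ) : ℝ := rr (1 - Real.exp (-(1 / (q : ℝ))))

theorem rr_bounds {p : ℝ} (h0 : 0 ≤ p) (h1 : p ≤ 1 / 10) : 0 ≤ rr p ∧ rr p ≤ 1 / 10 := by
  unfold rr
  have h2 : 0 ≤ 1 - p := by linarith
  have h3 : (1 - p) ^ 9 ≤ 1 := pow_le_one₀ h2 (by linarith)
  have h4 : 0 ≤ (1 - p) ^ 9 := pow_nonneg h2 9
  exact ⟨mul_nonneg h0 h4, by nlinarith⟩

theorem rq_bounds {q : ℕ} (hq : 10 ≤ q) : 0 ≤ rq q ∧ rq q ≤ 1 / 10 := by
  have hq' : (10 : ℝ) ≤ q := by exact_mod_cast hq
  have h0 : (0 : ℝ) < 1 / q := by positivity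
  have h1 := Real.add_one_le_exp (-(1 / (q : ℝ)))
  have h2 : Real.exp (-(1 / (q : ℝ))) ≤ 1 := Real.exp_le_one_iff.2 (by linarith)
  have h3 : 1 / (q : ℝ) ≤ 1 / 10 := one_div_le_one_div_of_le (by norm_num) hq'
  exact rr_bounds (by linarith) (by linarith)

theorem card_pts_le (i : ℕ) : ((pts i).card : ℝ) ≤ 10 := by
  have h : (pts i).card ≤ 10 := by
    have h1 : pts i ⊆ Finset.range 10 := fun j hj => Finset.mem_range.2 (mem_pts.1 hj).1
    simpa using Finset.card_le_card h1
  exact_mod_cast h

theorem slot_len {q : ℕ} (hq : 0 < q) (n : ℕ) :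
    (((2 ^ n : ℕ) * dl q n : ℝ≥0) : ℝ) = 1 / q := by
  unfold dl
  have : (0 : ℝ) < q := Nat.cast_pos.2 hq
  push_cast
  field_simp

theorem weights_state {q : ℕ} (hq : 10 ≤ q) (hSC : (0 : ℝ) < SC) (N : ℕ) :
    ∀ i < K, ∀ p : ℤ, ∃ w : Site 1 →₀ ℝ, (∀ z, 0 ≤ w z) ∧
      (w.sum fun _ a => a * (1 : ℝ)) = 1 ∧
      ∀ (n : ℕ) (f : Height 1),
        ((N : ℝ) * rq q * LL + pot i - PM) / SC + (w.sum fun z a => a * (f z : ℝ)) ≤
          ∫ h, val i p h ∂(lawK 1 (List.replicate (N * 2 ^ n) (dl q n)) f) := by
  induction N with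
  | zero =>
    intro i hi p
    obtain ⟨j, hj, hj0⟩ := exists_zero hi
    refine ⟨Finsupp.single (pt (p + j)) 1, ?_, ?_, ?_⟩
    · intro z
      rw [Finsupp.single_apply]
      split_ifs <;> norm_num
    · simp
    · intro n f
      rw [Nat.zero_mul, List.replicate_zero, lawK_nil, integral_dirac,
        Finsupp.sum_single_index (by simp)]
      have h1 := le_val hj p f
      rw [hj0] at h1
      have h2 : ((pot i : ℕ) : ℝ) ≤ PM := by exact_mod_cast pot_le hi
      have h3 : (((0 : ℕ) : ℝ) * rq q * LL + pot i - PM) / SC ≤ 0 := by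
        apply div_nonpos_of_nonpos_of_nonneg _ hSC.le
        simp only [Nat.cast_zero, zero_mul]
        linarith
      simp only [Nat.cast_zero, sub_zero] at h1 h3 ⊢
      linarith
  | succ N ih =>
    intro i hi p
    have hq0 : 0 < q := by omega
    obtain ⟨r0, r1⟩ := rq_bounds hq
    obtain ⟨w0, w0n, w01, w0i⟩ := ih i hi p
    have hex : ∀ j : ℕ, j ∈ pts i → ∃ w : Site 1 →₀ ℝ, (∀ z, 0 ≤ w z) ∧
        (w.sum fun _ a => a * (1 : ℝ)) = 1 ∧
        ∀ (n : ℕ) (f : Height 1),
          ((N : ℝ) * rq q * LL + pot (tg i j) - PM) / SC + (w.sum fun z a => a * (f z : ℝ)) ≤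
          ∫ h, val (tg i j) (p + of i j - 1) h
            ∂(lawK 1 (List.replicate (N * 2 ^ n) (dl q n)) f) := fun j hj =>
      ih (tg i j) (tg_lt hi hj) _
    choose! W hW0 hW1 hW2 using hex
    set r : ℝ := rq q with hr
    set m : ℝ := ((pts i).card : ℝ) with hm
    have hm10 : m ≤ 10 := card_pts_le i
    have hmr : 0 ≤ 1 - m * r := by
      have : m * r ≤ 10 * r := mul_le_mul_of_nonneg_right hm10 r0
      linarith
    let cf : Option ℕ → ℝ := fun o => match o with
      | none => 1 - m * r
      | some _ => r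
    let WW : Option ℕ → (Site 1 →₀ ℝ) := fun o => match o with
      | none => w0
      | some j => W j
    have hcf : ∀ o, 0 ≤ cf o := by
      intro o
      cases o with
      | none => exact hmr
      | some j => exact r0
    refine ⟨∑ o ∈ (pts i).insertNone, cf o • WW o, ?_, ?_, ?_⟩
    · intro z
      rw [Finsupp.finsetSum_apply]
      refine Finset.sum_nonneg fun o ho => ?_
      rw [Finsupp.smul_apply, smul_eq_mul]
      refine mul_nonneg (hcf o) ?_
      cases o with
      | none => exact w0n z
      | some j => exact hW0 j (Finset.some_mem_insertNone.1 ho) z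
    · rw [sum_comb (pts i).insertNone cf WW (fun _ => 1), Finset.sum_insertNone]
      change (1 - m * r) * (w0.sum fun _ a => a * (1 : ℝ)) +
        ∑ j ∈ pts i, r * ((W j).sum fun _ a => a * (1 : ℝ)) = 1
      rw [w01, Finset.sum_congr rfl (fun j hj => by rw [hW1 j hj, mul_one]), Finset.sum_const,
        nsmul_eq_mul, ← hm]
      ring
    · intro n f
      rw [sum_comb (pts i).insertNone cf WW (fun z => (f z : ℝ)), Finset.sum_insertNone]
      change ((N + 1 : ℕ) * r * LL + pot i - PM) / SC +
        ((1 - m * r) * (w0.sum fun z a => a * (f z : ℝ)) +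
        ∑ j ∈ pts i, r * ((W j).sum fun z a => a * (f z : ℝ))) ≤ _
      set δ := dl q n with hδ
      have hrep : List.replicate ((N + 1) * 2 ^ n) δ =
          List.replicate (2 ^ n) δ ++ List.replicate (N * 2 ^ n) δ := by
        rw [← List.replicate_add]
        congr 1
        ring
      set L := lawK 1 (List.replicate (N * 2 ^ n) δ) f with hL
      rw [hrep, integral_lawK_append _ _ _
        (integrable_lawK_of_mono (measurable_val' i p) (monotone_val' i p) _ _)]
      have hlen : 1 - Real.exp (-(((2 ^ n : ℕ) * δ : ℝ≥0) : ℝ)) =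
          1 - Real.exp (-(1 / (q : ℝ))) := by
        rw [hδ, slot_len hq0]
      have step1 : ∀ h : Height 1, val i p h + ∑ j ∈ pts i, r *
          ((gn (dg i j) : ℝ) + val (tg i j) (p + of i j - 1) h - val i p h) ≤
          ∫ g, val i p g ∂(lawK 1 (List.replicate (2 ^ n) δ) h) := by
        intro h
        refine le_trans ?_ (integral_lawK_replicate_ge (measurable_val' i p) (monotone_val' i p) δ
          (2 ^ n) h)
        have e1 := val_step_ge hi p ((2 ^ n : ℕ) * δ) h
        rw [hlen] at e1
        exact e1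
      have iv : ∀ i p, Integrable (val i p) L := fun i p =>
        integrable_lawK_of_mono (measurable_val' i p) (monotone_val' i p) _ _
      have ij : ∀ j, Integrable (fun h => r *
          ((gn (dg i j) : ℝ) + val (tg i j) (p + of i j - 1) h - val i p h)) L := fun j =>
        (((integrable_const _).add (iv _ _)).sub (iv _ _)).const_mul _
      have step2 := integral_mono ((iv i p).add (integrable_finsetSum (pts i) fun j _ => ij j))
        (integrable_lawK_of_mono (measurable_integral_lawK (measurable_val' i p)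
          (List.replicate (2 ^ n) δ)) (monotone_integral_lawK (measurable_val' i p)
            (monotone_val' i p) _) (List.replicate (N * 2 ^ n) δ) f) step1
      refine le_trans ?_ step2
      have e3 : ∫ h, (val i p + fun h => ∑ j ∈ pts i, r *
          ((gn (dg i j) : ℝ) + val (tg i j) (p + of i j - 1) h - val i p h)) h ∂L =
          ∫ h, val i p h ∂L + ∑ j ∈ pts i, r * ((gn (dg i j) : ℝ) +
            ∫ h, val (tg i j) (p + of i j - 1) h ∂L - ∫ h, val i p h ∂L) := by
        rw [integral_add' (iv i p) (integrable_finsetSum (pts i) fun j _ => ij j),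
          integral_finsetSum _ (fun j _ => ij j)]
        congr 1
        refine Finset.sum_congr rfl fun j _ => ?_
        have ia : Integrable (fun h => (gn (dg i j) : ℝ) +
            val (tg i j) (p + of i j - 1) h) L := (integrable_const _).add (iv _ _)
        rw [integral_const_mul, integral_sub ia (iv _ _),
          integral_add (integrable_const _) (iv _ _), integral_const, probReal_univ, one_smul]
      rw [e3]
      set I0 := ∫ h, val i p h ∂L with hI0
      have a0 := w0i n f
      rw [← hδ, ← hL, ← hI0] at a0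
      have aj : ∀ j ∈ pts i, ((N : ℝ) * r * LL + pot (tg i j) - PM) / SC +
          ((W j).sum fun z a => a * (f z : ℝ)) ≤
            ∫ h, val (tg i j) (p + of i j - 1) h ∂L := fun j hj => hW2 j hj n f
      have b0 := mul_le_mul_of_nonneg_left a0 hmr
      have bj : ∑ j ∈ pts i, r * (((N : ℝ) * r * LL + pot (tg i j) - PM) / SC +
          ((W j).sum fun z a => a * (f z : ℝ)) + (gn (dg i j) : ℝ)) ≤
          ∑ j ∈ pts i, r * ((gn (dg i j) : ℝ) +
            ∫ h, val (tg i j) (p + of i j - 1) h ∂L) := by
        refine Finset.sum_le_sum fun j hj => ?_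
        refine mul_le_mul_of_nonneg_left ?_ r0
        have := aj j hj
        linarith
      have c1 : ∑ j ∈ pts i, r * ((gn (dg i j) : ℝ) +
            ∫ h, val (tg i j) (p + of i j - 1) h ∂L - I0) =
          ∑ j ∈ pts i, r * ((gn (dg i j) : ℝ) +
            ∫ h, val (tg i j) (p + of i j - 1) h ∂L) - m * r * I0 := by
        have : ∀ j ∈ pts i, r * ((gn (dg i j) : ℝ) +
            ∫ h, val (tg i j) (p + of i j - 1) h ∂L - I0) = r * ((gn (dg i j) : ℝ) +
            ∫ h, val (tg i j) (p + of i j - 1) h ∂L) - r * I0 := fun j _ => by ring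
        rw [Finset.sum_congr rfl this, Finset.sum_sub_distrib, Finset.sum_const, nsmul_eq_mul,
          ← hm]
        ring
      have c2 : ∑ j ∈ pts i, r * (((N : ℝ) * r * LL + pot (tg i j) - PM) / SC +
          ((W j).sum fun z a => a * (f z : ℝ)) + (gn (dg i j) : ℝ)) =
          m * r * (((N : ℝ) * r * LL - PM) / SC) +
            ∑ j ∈ pts i, r * ((W j).sum fun z a => a * (f z : ℝ)) +
            r / SC * ∑ j ∈ pts i, ((gn (dg i j) : ℝ) * SC + pot (tg i j)) := by
        have h1 : ∀ j ∈ pts i, r * (((N : ℝ) * r * LL + pot (tg i j) - PM) / SC +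
          ((W j).sum fun z a => a * (f z : ℝ)) + (gn (dg i j) : ℝ)) =
            r * (((N : ℝ) * r * LL - PM) / SC) + r * ((W j).sum fun z a => a * (f z : ℝ)) +
            r / SC * ((gn (dg i j) : ℝ) * SC + pot (tg i j)) := by
          intro j _
          field_simp
          ring
        rw [Finset.sum_congr rfl h1, Finset.sum_add_distrib, Finset.sum_add_distrib,
          Finset.sum_const, nsmul_eq_mul, ← hm, Finset.mul_sum]
        ring
      have hg : m * pot i + LL ≤ ∑ j ∈ pts i, ((gn (dg i j) : ℝ) * SC + pot (tg i j)) := by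
        have := growth hi
        rw [hm]
        exact_mod_cast this
      have hrS : 0 ≤ r / SC := div_nonneg r0 hSC.le
      have d1 := mul_le_mul_of_nonneg_left hg hrS
      rw [c1]
      rw [c2] at bj
      have e4 : ((N + 1 : ℕ) * r * LL + pot i - PM) / (SC : ℝ) =
          (1 - m * r) * (((N : ℝ) * r * LL + pot i - PM) / SC) +
            m * r * (((N : ℝ) * r * LL - PM) / SC) + r / SC * (m * pot i + LL) := by
        push_cast
        field_simp
        ring
      rw [e4]
      linarith

end Pool.MP4bb68cOne
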