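import Mathlib
import Pool.Agent.Work.MP_4bb68c_pr.Chain
import Pool.Agent.Work.MP_4bb68c_pr.Family
import Pool.Agent.Work.MP_4bb68c_d1.Basic
import Pool.Agent.Work.MP_4bb68c_d1.LChk
import Pool.Agent.Work.MP_4bb68c_d1.LStep
import Pool.Agent.Work.MP_4bb68c_d1.LWeights

/-!
# Lower bounds by convex combinations of the initial heights: conclusion
-/

open MeasureTheory ProbabilityTheory Filter Topology
open scoped NNReal ENNReal

namespace Pool.MP4bb68cOne

open Pool.MP4bb68c LCert

attribute [local irreducible] row trow K SC LCert.LL PM i0 dg pot tg of pts gn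

theorem val_start_le (h : Height 1) : val i0 0 h ≤ h 0 := by
  refine val_le (by rw [pts_start]; exact Finset.singleton_nonempty 0) fun j hj => ?_
  rw [pts_start, Finset.mem_singleton] at hj
  rw [hj, dg_start]
  simp [zero_eq_pt]

theorem integral_reflectH (l : List ℝ≥0) (f : Height 1) :
    ∫ h, (h 0 : ℝ) ∂(lawK 1 l (reflectH f)) = ∫ h, (h 0 : ℝ) ∂(lawK 1 l f) := by
  rw [← lawK_map_reflectH, integral_map continuous_reflectH.aemeasurable
    (measurable_height_real 0).aestronglyMeasurable]
  simp [reflectH]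

theorem sum_reflect (w : Site 1 →₀ ℝ) (g : Site 1 → ℝ) :
    ((Finsupp.equivMapDomain (Equiv.neg (Site 1)) w).sum fun z a => a * g z) =
      w.sum fun z a => a * g (-z) := by
  rw [Finsupp.equivMapDomain_eq_mapDomain, Finsupp.sum_mapDomain_index]
  · rfl
  · intro z; exact zero_mul _
  · intro z a b; exact add_mul _ _ _

/-- The weights for the flat growth. -/
theorem weights_flat {q : ℕ} (hq : 10 ≤ q) (hSC : (0 : ℝ) < SC) (N : ℕ) :
    ∃ w : Site 1 →₀ ℝ, (∀ z, 0 ≤ w z) ∧ (w.sum fun _ a => a) = 1 ∧
      (w.sum fun z a => a * (z 0 : ℝ)) = 0 ∧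
      ∀ (n : ℕ) (f : Height 1),
        ((N : ℝ) * rq q * LCert.LL - PM) / SC + (w.sum fun z a => a * (f z : ℝ)) ≤
          ∫ h, (h 0 : ℝ) ∂(lawK 1 (List.replicate (N * 2 ^ n) (dl q n)) f) := by
  obtain ⟨w, w0, w1, w2⟩ := weights_state hq hSC N i0 start_lt 0
  have key : ∀ (n : ℕ) (f : Height 1),
        ((N : ℝ) * rq q * LCert.LL - PM) / SC + (w.sum fun z a => a * (f z : ℝ)) ≤
          ∫ h, (h 0 : ℝ) ∂(lawK 1 (List.replicate (N * 2 ^ n) (dl q n)) f) := by
    intro n f
    have h1 := w2 n f
    have h2 : ∫ h, val i0 0 h ∂(lawK 1 (List.replicate (N * 2 ^ n) (dl q n)) f) ≤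
        ∫ h, (h 0 : ℝ) ∂(lawK 1 (List.replicate (N * 2 ^ n) (dl q n)) f) :=
      integral_mono (integrable_lawK_of_mono (measurable_val' _ _) (monotone_val' _ _) _ _)
        (integrable_height _ _ _) val_start_le
    have h3 : ((N : ℝ) * rq q * LCert.LL - PM) / SC ≤ ((N : ℝ) * rq q * LCert.LL + pot i0 - PM) / SC := by
      apply div_le_div_of_nonneg_right _ hSC.le
      have : (0 : ℝ) ≤ pot i0 := Nat.cast_nonneg _
      linarith
    linarith
  let W : Bool → (Site 1 →₀ ℝ) := fun b => if b then w else
    Finsupp.equivMapDomain (Equiv.neg (Site 1)) w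
  have hcomb : ∀ g : Site 1 → ℝ, ((∑ b : Bool, ((1 : ℝ) / 2) • W b).sum fun z a => a * g z) =
      1 / 2 * (w.sum fun z a => a * g z) + 1 / 2 * (w.sum fun z a => a * g (-z)) := by
    intro g
    rw [sum_comb Finset.univ (fun _ : Bool => (1 : ℝ) / 2) W g, Fintype.sum_bool]
    simp only [W, if_true, Bool.false_eq_true, if_false, sum_reflect]
  refine ⟨∑ b : Bool, ((1 : ℝ) / 2) • W b, ?_, ?_, ?_, ?_⟩
  · intro z
    rw [Fintype.sum_bool, Finsupp.add_apply, Finsupp.smul_apply, Finsupp.smul_apply]
    simp only [W, if_true, Bool.false_eq_true, if_false, smul_eq_mul,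
      Finsupp.equivMapDomain_apply]
    have := w0 z
    have := w0 ((Equiv.neg (Site 1)).symm z)
    positivity
  · have := hcomb (fun _ => 1)
    rw [w1] at this
    simp only [mul_one] at this
    rw [this]
    norm_num
  · rw [hcomb (fun z => (z 0 : ℝ))]
    have : (w.sum fun z a => a * (((-z : Site 1) 0 : ℤ) : ℝ)) =
        -(w.sum fun z a => a * ((z 0 : ℤ) : ℝ)) := by
      unfold Finsupp.sum
      rw [← Finset.sum_neg_distrib]
      refine Finset.sum_congr rfl fun z _ => ?_
      simp
    rw [this]
    ring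
  · intro n f
    rw [hcomb (fun z => (f z : ℝ))]
    have h1 := key n f
    have h2 := key n (reflectH f)
    rw [integral_reflectH] at h2
    have h3 : (w.sum fun z a => a * ((reflectH f z : ℤ) : ℝ)) =
        w.sum fun z a => a * ((f (-z) : ℤ) : ℝ) := rfl
    rw [h3] at h2
    linarith

/-- The weights for the greedy path. -/
theorem weights_greedy {q : ℕ} (hq : 0 < q) (N : ℕ) :
    ∀ x : ℤ, ∃ w : Site 1 →₀ ℝ, (∀ z, 0 ≤ w z) ∧ (w.sum fun _ a => a * (1 : ℝ)) = 1 ∧
      (w.sum fun z a => a * (z 0 : ℝ)) = x + N * (1 - Real.exp (-(1 / (q : ℝ)))) ∧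
      ∀ (n : ℕ) (f : Height 1), (w.sum fun z a => a * (f z : ℝ)) ≤
          ∫ h, (h (pt x) : ℝ) ∂(lawK 1 (List.replicate (N * 2 ^ n) (dl q n)) f) := by
  have hq1 : (0 : ℝ) < q := by exact_mod_cast hq
  set p : ℝ := 1 - Real.exp (-(1 / (q : ℝ))) with hp
  have hp0 : 0 ≤ p := by
    rw [hp, sub_nonneg]
    exact Real.exp_le_one_iff.2 (by
      have : 0 < 1 / (q : ℝ) := by positivity
      linarith)
  have hp1 : 0 ≤ 1 - p := by
    rw [hp]
    have := Real.exp_pos (-(1 / (q : ℝ)))
    linarith
  induction N with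
  | zero =>
    intro x
    refine ⟨Finsupp.single (pt x) 1, ?_, ?_, ?_, ?_⟩
    · intro z
      rw [Finsupp.single_apply]
      split_ifs <;> norm_num
    · simp
    · simp
    · intro n f
      rw [Nat.zero_mul, List.replicate_zero, lawK_nil, integral_dirac,
        Finsupp.sum_single_index (by simp), one_mul]
  | succ N ih =>
    intro x
    obtain ⟨w, w0, w1, w2, w3⟩ := ih x
    obtain ⟨v, v0, v1, v2, v3⟩ := ih (x + 1)
    let cf : Bool → ℝ := fun b => if b then p else 1 - p
    let W : Bool → (Site 1 →₀ ℝ) := fun b => if b then v else w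
    have hcomb : ∀ g : Site 1 → ℝ, ((∑ b : Bool, cf b • W b).sum fun z a => a * g z) =
        p * (v.sum fun z a => a * g z) + (1 - p) * (w.sum fun z a => a * g z) := by
      intro g
      rw [sum_comb Finset.univ cf W g, Fintype.sum_bool]
      simp only [cf, W, if_true, Bool.false_eq_true, if_false]
    refine ⟨∑ b : Bool, cf b • W b, ?_, ?_, ?_, ?_⟩
    · intro z
      rw [Fintype.sum_bool, Finsupp.add_apply, Finsupp.smul_apply, Finsupp.smul_apply]
      simp only [cf, W, if_true, Bool.false_eq_true, if_false, smul_eq_mul]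
      exact add_nonneg (mul_nonneg hp0 (v0 z)) (mul_nonneg hp1 (w0 z))
    · rw [hcomb (fun _ => 1), w1, v1]
      ring
    · rw [hcomb (fun z => (z 0 : ℝ)), w2, v2]
      push_cast
      ring
    · intro n f
      rw [hcomb (fun z => (f z : ℝ))]
      set δ := dl q n with hδ
      have hrep : List.replicate ((N + 1) * 2 ^ n) δ =
          List.replicate (2 ^ n) δ ++ List.replicate (N * 2 ^ n) δ := by
        rw [← List.replicate_add]
        congr 1
        ring
      set L := lawK 1 (List.replicate (N * 2 ^ n) δ) f with hL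
      rw [hrep, integral_lawK_append _ _ _ (integrable_height _ _ _)]
      have hlen : 1 - Real.exp (-(((2 ^ n : ℕ) * δ : ℝ≥0) : ℝ)) = p := by
        rw [hδ, slot_len hq, hp]
      have step1 : ∀ h : Height 1, p * (h (pt (x + 1)) : ℝ) + (1 - p) * (h (pt x) : ℝ) ≤
          ∫ g, (g (pt x) : ℝ) ∂(lawK 1 (List.replicate (2 ^ n) δ) h) := by
        intro h
        refine le_trans ?_ (integral_lawK_replicate_ge (measurable_height_real (pt x))
          (monotone_height_real (pt x)) δ (2 ^ n) h)
        have e1 := integral_siteLaw_ite ((2 ^ n : ℕ) * δ) (pt x) (h (pt (x + 1)) : ℝ)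
          (h (pt x) : ℝ)
        have e2 : Real.exp (-(((2 ^ n : ℕ) * δ : ℝ≥0) : ℝ)) = 1 - p := by
          rw [← hlen]; ring
        rw [e2, sub_sub_cancel] at e1
        rw [← e1]
        refine integral_mono ?_ (integrable_siteLaw_of_mono (measurable_height_real (pt x))
          (monotone_height_real (pt x)) _ h) ?_
        · refine Integrable.of_bound (C := |(h (pt (x + 1)) : ℝ)| + |(h (pt x) : ℝ)|) ?_ ?_
          · refine Measurable.aestronglyMeasurable ?_
            exact Measurable.ite (measurableSet_eq_fun (by fun_prop) measurable_const)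
              measurable_const measurable_const
          · refine Filter.Eventually.of_forall fun ξ => ?_
            rw [Real.norm_eq_abs]
            have a1 := abs_nonneg (h (pt (x + 1)) : ℝ)
            have a2 := abs_nonneg (h (pt x) : ℝ)
            split_ifs <;> linarith
        · intro ξ
          simp only
          rw [slotStep_pt]
          split_ifs
          · exact_mod_cast (le_max_left _ _).trans (le_max_right _ _)
          · exact le_rfl
      have ih1 : Integrable (fun h : Height 1 => p * (h (pt (x + 1)) : ℝ)) L :=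
        (integrable_height _ _ _).const_mul _
      have ih2 : Integrable (fun h : Height 1 => (1 - p) * (h (pt x) : ℝ)) L :=
        (integrable_height _ _ _).const_mul _
      have step2 := integral_mono (ih1.add ih2)
        (integrable_lawK_of_mono (measurable_integral_lawK (measurable_height_real (pt x))
          (List.replicate (2 ^ n) δ)) (monotone_integral_lawK (measurable_height_real (pt x))
            (monotone_height_real (pt x)) _) (List.replicate (N * 2 ^ n) δ) f) step1
      refine le_trans ?_ step2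
      rw [integral_add' ih1 ih2, integral_const_mul, integral_const_mul]
      have a1 := mul_le_mul_of_nonneg_left (v3 n f) hp0
      have a2 := mul_le_mul_of_nonneg_left (w3 n f) hp1
      linarith

end Pool.MP4bb68cOne
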