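import Mathlib
import Pool.Agent.Work.MP_4bb68c_d1.UCert

/-!
# The local inequality for the upper bound
-/

namespace Pool.MP4bb68cOne

open UCert

/-- exponential weight of a height, base `4/3` -/
noncomputable def E (n : ℤ) : ℝ := (4 / 3 : ℝ) ^ n

theorem E_pos (n : ℤ) : 0 < E n := by unfold E; positivity

theorem E_add_one (n : ℤ) : E (n + 1) = 4 / 3 * E n := by
  unfold E; rw [zpow_add_one₀ (by norm_num)]; ring

theorem E_mono {m n : ℤ} (h : m ≤ n) : E m ≤ E n := by
  unfold E; exact zpow_le_zpow_right₀ (by norm_num) h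

theorem E_step {m n : ℤ} (h : m + 1 ≤ n) : 4 / 3 * E m ≤ E n := by
  rw [← E_add_one]; exact E_mono h

theorem E_step2 {m n : ℤ} (h : m + 2 ≤ n) : 16 / 9 * E m ≤ E n := by
  have h1 : 4 / 3 * E (m + 1) ≤ E n := E_step (by omega)
  rw [E_add_one] at h1; linarith

/-- sign of a difference -/
def sgn (x y : ℤ) : ℕ := if y < x then 0 else if x = y then 1 else 2

/-- class of a difference, five values -/
def cls (x y : ℤ) : ℕ :=
  if y + 2 ≤ x then 0 else if y + 1 = x then 1 else if x = y then 2 else if x + 1 = y then 3 else 4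

/-- The weight attached to three neighbouring heights. -/
noncomputable def F (l0 l1 l2 : ℤ) : ℝ :=
  TF (sgn l0 l1) (sgn l1 l2) 0 * E l0 + TF (sgn l0 l1) (sgn l1 l2) 1 * E l1
    + TF (sgn l0 l1) (sgn l1 l2) 2 * E l2

/-- The corrector. -/
noncomputable def G (l0 l1 l2 : ℤ) : ℝ :=
  TG (sgn l0 l1) (sgn l1 l2) 0 * E l0 + TG (sgn l0 l1) (sgn l1 l2) 1 * E l1
    + TG (sgn l0 l1) (sgn l1 l2) 2 * E l2

theorem cls_cases (x y : ℤ) : (cls x y = 0 ∧ y + 2 ≤ x) ∨ (cls x y = 1 ∧ x = y + 1) ∨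
    (cls x y = 2 ∧ x = y) ∨ (cls x y = 3 ∧ y = x + 1) ∨ (cls x y = 4 ∧ x + 2 ≤ y) := by
  unfold cls; split_ifs <;> omega

theorem sgn_eq_sg (x y : ℤ) : sgn x y = sg (cls x y) := by
  rcases cls_cases x y with h | h | h | h | h <;> rw [h.1] <;> unfold sgn sg <;>
    split_ifs <;> omega

theorem cls_le_two (x y : ℤ) : cls x y ≤ 2 ↔ y ≤ x := by
  rcases cls_cases x y with h | h | h | h | h <;> omega

theorem compat_cls (x y z : ℤ) : compat (cls x y) (cls y z) (sgn x z) = true := by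
  have hs : (sgn x z = 0 ∧ z < x) ∨ (sgn x z = 1 ∧ x = z) ∨ (sgn x z = 2 ∧ x < z) := by
    unfold sgn; split_ifs <;> omega
  rcases cls_cases x y with h | h | h | h | h <;>
  rcases cls_cases y z with k | k | k | k | k <;>
  rcases hs with s | s | s <;> rw [h.1, k.1, s.1] <;> first | rfl | (exfalso; omega)

section
variable (e : ℕ → ℝ)

/-- evaluation of a linear form -/
noncomputable def ev (v : ℕ → ℤ) : ℝ := ∑ j ∈ Finset.range 4, (v j : ℝ) * e j

theorem ev_addT (T : ℕ → ℕ → ℕ → ℤ) (s t i0 i1 i2 : ℕ) (e0 e1 e2 : ℤ) (h0 : i0 < 4) (h1 : i1 < 4)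
    (h2 : i2 < 4) : ev e (addT T s t i0 i1 i2 e0 e1 e2) =
      T s t 0 * e0 * e i0 + T s t 1 * e1 * e i1 + T s t 2 * e2 * e i2 := by
  unfold ev addT
  push_cast
  simp only [add_mul, Finset.sum_add_distrib, ite_mul, zero_mul]
  rw [Finset.sum_ite_eq', Finset.sum_ite_eq', Finset.sum_ite_eq']
  simp [h0, h1, h2]

end

/-- heights as a sequence -/
def ht (l0 l1 l2 l3 : ℤ) (j : ℕ) : ℤ :=
  if j = 0 then l0 else if j = 1 then l1 else if j = 2 then l2 else l3

theorem F_eq (x y z : ℤ) (s t : ℕ) (hs : sgn x y = s) (ht : sgn y z = t) :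
    F x y z = TF s t 0 * E x + TF s t 1 * E y + TF s t 2 * E z := by
  subst hs ht; rfl

theorem sgn_up (x y : ℤ) : sgn (x + 1) (max x y) =
    (if cls x y ≤ 2 then 0 else if cls x y = 3 then 1 else 2) := by
  rcases cls_cases x y with h | h | h | h | h <;> rw [h.1] <;> simp only [sgn] <;>
    rcases le_total x y with k | k <;> simp only [max_eq_left, max_eq_right, k] <;>
    split_ifs <;> omega

theorem sgn_down (x y : ℤ) : sgn (max x y) (y + 1) =
    (if cls x y = 0 then 0 else if cls x y = 1 then 1 else 2) := by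
  rcases cls_cases x y with h | h | h | h | h <;> rw [h.1] <;> simp only [sgn] <;>
    rcases le_total x y with k | k <;> simp only [max_eq_left, max_eq_right, k] <;>
    split_ifs <;> omega

theorem sgn_max_left (x y z : ℤ) : sgn (max x y) z =
    (if cls x y ≤ 2 then sgn x z else sg (cls y z)) := by
  rw [← sgn_eq_sg]
  by_cases h : cls x y ≤ 2
  · rw [if_pos h, max_eq_left ((cls_le_two _ _).1 h)]
  · rw [if_neg h, max_eq_right]
    rw [cls_le_two] at h; omega

theorem sgn_max_right (x y z : ℤ) : sgn x (max y z) =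
    (if cls y z ≤ 2 then sg (cls x y) else sgn x z) := by
  rw [← sgn_eq_sg]
  by_cases h : cls y z ≤ 2
  · rw [if_pos h, max_eq_left ((cls_le_two _ _).1 h)]
  · rw [if_neg h, max_eq_right]
    rw [cls_le_two] at h; omega

theorem E_max (x y : ℤ) : E (max x y) = if cls x y ≤ 2 then E x else E y := by
  by_cases h : cls x y ≤ 2
  · rw [if_pos h, max_eq_left ((cls_le_two _ _).1 h)]
  · rw [if_neg h, max_eq_right]
    rw [cls_le_two] at h; omega

theorem ev_con5 (e : ℕ → ℝ) (x y : ℤ) (i k : ℕ) (hi : i < 4) (hk : k < 4) (hx : e i = E x)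
    (hy : e k = E y) (m : ℤ)
    (hm : cls x y = 1 ∨ cls x y = 2 ∨ cls x y = 3 ∨ 0 ≤ m) :
    0 ≤ (m : ℝ) * ev e (con5 (cls x y) i k) := by
  have key : ∀ p q : ℤ, ev e (fun j => (if j = i then p else 0) + (if j = k then q else 0)) =
      p * E x + q * E y := by
    intro p q
    unfold ev
    push_cast
    simp only [add_mul, Finset.sum_add_distrib, ite_mul, zero_mul]
    rw [Finset.sum_ite_eq', Finset.sum_ite_eq']
    simp [hi, hk, hx, hy]
  rcases cls_cases x y with h | h | h | h | h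
  · have h1 : ev e (con5 (cls x y) i k) = (9 : ℤ) * E x + (-16 : ℤ) * E y := by
      rw [← key, h.1]; rfl
    rw [h1]
    have hm' : 0 ≤ m := by rcases hm with h' | h' | h' | h' <;> omega
    have := E_step2 h.2
    push_cast
    apply mul_nonneg (by exact_mod_cast hm'); linarith
  · have h1 : ev e (con5 (cls x y) i k) = (3 : ℤ) * E x + (-4 : ℤ) * E y := by
      rw [← key, h.1]; rfl
    rw [h1, h.2, E_add_one]; push_cast
    apply le_of_eq; ring
  · have h1 : ev e (con5 (cls x y) i k) = (1 : ℤ) * E x + (-1 : ℤ) * E y := by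
      rw [← key, h.1]; rfl
    rw [h1, h.2]; push_cast
    apply le_of_eq; ring
  · have h1 : ev e (con5 (cls x y) i k) = (4 : ℤ) * E x + (-3 : ℤ) * E y := by
      rw [← key, h.1]; rfl
    rw [h1, h.2, E_add_one]; push_cast
    apply le_of_eq; ring
  · have h1 : ev e (con5 (cls x y) i k) = (-16 : ℤ) * E x + (9 : ℤ) * E y := by
      rw [← key, h.1]; rfl
    rw [h1]
    have hm' : 0 ≤ m := by rcases hm with h' | h' | h' | h' <;> omega
    have := E_step2 h.2
    push_cast
    apply mul_nonneg (by exact_mod_cast hm'); linarith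

theorem ev_con3 (e : ℕ → ℝ) (x y : ℤ) (i k : ℕ) (hi : i < 4) (hk : k < 4) (hx : e i = E x)
    (hy : e k = E y) (m : ℤ) (hm : sgn x y = 1 ∨ 0 ≤ m) :
    0 ≤ (m : ℝ) * ev e (con3 (sgn x y) i k) := by
  have key : ∀ p q : ℤ, ev e (fun j => (if j = i then p else 0) + (if j = k then q else 0)) =
      p * E x + q * E y := by
    intro p q
    unfold ev
    push_cast
    simp only [add_mul, Finset.sum_add_distrib, ite_mul, zero_mul]
    rw [Finset.sum_ite_eq', Finset.sum_ite_eq']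
    simp [hi, hk, hx, hy]
  have hs : (sgn x y = 0 ∧ y < x) ∨ (sgn x y = 1 ∧ x = y) ∨ (sgn x y = 2 ∧ x < y) := by
    unfold sgn; split_ifs <;> omega
  rcases hs with h | h | h
  · have h1 : ev e (con3 (sgn x y) i k) = (3 : ℤ) * E x + (-4 : ℤ) * E y := by
      rw [← key, h.1]; rfl
    rw [h1]
    have hm' : 0 ≤ m := by rcases hm with h' | h' <;> omega
    have := E_step (m := y) (n := x) (by omega)
    push_cast
    apply mul_nonneg (by exact_mod_cast hm'); linarith
  · have h1 : ev e (con3 (sgn x y) i k) = (1 : ℤ) * E x + (-1 : ℤ) * E y := by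
      rw [← key, h.1]; rfl
    rw [h1, h.2]; push_cast
    apply le_of_eq; ring
  · have h1 : ev e (con3 (sgn x y) i k) = (-4 : ℤ) * E x + (3 : ℤ) * E y := by
      rw [← key, h.1]; rfl
    rw [h1]
    have hm' : 0 ≤ m := by rcases hm with h' | h' <;> omega
    have := E_step (m := x) (n := y) (by omega)
    push_cast
    apply mul_nonneg (by exact_mod_cast hm'); linarith

theorem nonneg_iff (m : ℤ) : nonneg m = true ↔ 0 ≤ m := by
  cases m with
  | ofNat n => simp [nonneg]
  | negSucc n => simp [nonneg]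

theorem nonpos_imp (m : ℤ) (h : nonpos m = true) : m ≤ 0 := by
  cases m with
  | ofNat n => simp [nonpos] at h; simp [h]
  | negSucc n => omega

theorem chk_all (a b c u v : ℕ) (ha : a < 5) (hb : b < 5) (hc : c < 5) (hu : u < 3) (hv : v < 3)
    (h1 : compat a b u = true) (h2 : compat b c v = true) :
    ∃ m, chk a b c u v m = true := by
  have h := chkAll_eq
  unfold chkAll at h
  simp only [List.all_eq_true, List.mem_range] at h
  have := h a ha b hb c hc u hu v hv
  rw [h1, h2] at this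
  exact ⟨_, by simpa using this⟩

attribute [local irreducible] TF TG sg cls sgn E ev addT con5 con3 in
theorem row_le (l0 l1 l2 l3 : ℤ) :
    4000 * (F (max l0 l1) l2 l3 - F l1 l2 l3) + 3000 * (F l0 l1 (max l2 l3) - F l0 l1 l2)
      + 3000 * (F (l0 + 1) (max l0 l1) l2 - F l0 l1 l2)
      + 3000 * (F (max l0 l1) (l1 + 1) (max l1 l2) - F l0 l1 l2)
      + 3000 * (F l0 (max l1 l2) (l2 + 1) - F l0 l1 l2)
      - 2511 * F l0 l1 l2 + 3000 * G l0 l1 l2 - 4000 * G l1 l2 l3 ≤ 0 := by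
  set a := cls l0 l1 with ha
  set b := cls l1 l2 with hb
  set c := cls l2 l3 with hc
  set u := sgn l0 l2 with hu
  set v := sgn l1 l3 with hv
  let e : ℕ → ℝ := fun j => E (ht l0 l1 l2 l3 j)
  have e0 : e 0 = E l0 := rfl
  have e1 : e 1 = E l1 := rfl
  have e2 : e 2 = E l2 := rfl
  have e3 : e 3 = E l3 := rfl
  have epos : ∀ j, 0 ≤ e j := fun j => (E_pos _).le
  -- evaluation of the linear form
  have hrow : 4000 * (F (max l0 l1) l2 l3 - F l1 l2 l3) + 3000 * (F l0 l1 (max l2 l3) - F l0 l1 l2)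
      + 3000 * (F (l0 + 1) (max l0 l1) l2 - F l0 l1 l2)
      + 3000 * (F (max l0 l1) (l1 + 1) (max l1 l2) - F l0 l1 l2)
      + 3000 * (F l0 (max l1 l2) (l2 + 1) - F l0 l1 l2)
      - 2511 * F l0 l1 l2 + 3000 * G l0 l1 l2 - 4000 * G l1 l2 l3 = ev e (row a b c u v) := by
    have hsum : ev e (row a b c u v) =
        ev e (addT TF (if a ≤ 2 then u else sg b) (sg c) (if a ≤ 2 then 0 else 1) 2 3
          4000 4000 4000)
        + ev e (addT TF (sg b) (sg c) 1 2 3 (-4000) (-4000) (-4000))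
        + ev e (addT TF (sg a) (if c ≤ 2 then sg b else v) 0 1 (if c ≤ 2 then 2 else 3)
          3000 3000 3000)
        + ev e (addT TF (if a ≤ 2 then 0 else if a = 3 then 1 else 2) (if a ≤ 2 then u else sg b)
          0 (if a ≤ 2 then 0 else 1) 2 4000 3000 3000)
        + ev e (addT TF (if a = 0 then 0 else if a = 1 then 1 else 2)
          (if b ≤ 2 then 0 else if b = 3 then 1 else 2)
          (if a ≤ 2 then 0 else 1) 1 (if b ≤ 2 then 1 else 2) 3000 4000 3000)
        + ev e (addT TF (if b ≤ 2 then sg a else u) (if b = 0 then 0 else if b = 1 then 1 else 2)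
          0 (if b ≤ 2 then 1 else 2) 2 3000 3000 4000)
        + ev e (addT TF (sg a) (sg b) 0 1 2 (-14511) (-14511) (-14511))
        + ev e (addT TG (sg a) (sg b) 0 1 2 3000 3000 3000)
        + ev e (addT TG (sg b) (sg c) 1 2 3 (-4000) (-4000) (-4000)) := by
      unfold ev row
      push_cast
      simp only [← Finset.sum_add_distrib]
      refine Finset.sum_congr rfl fun j _ => ?_
      ring
    rw [hsum]
    rw [ev_addT _ _ _ _ _ _ _ _ _ _ (by split_ifs <;> omega) (by omega) (by omega),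
      ev_addT _ _ _ _ _ _ _ _ _ _ (by omega) (by omega) (by omega),
      ev_addT _ _ _ _ _ _ _ _ _ _ (by omega) (by omega) (by split_ifs <;> omega),
      ev_addT _ _ _ _ _ _ _ _ _ _ (by omega) (by split_ifs <;> omega) (by omega),
      ev_addT _ _ _ _ _ _ _ _ _ _ (by split_ifs <;> omega) (by omega) (by split_ifs <;> omega),
      ev_addT _ _ _ _ _ _ _ _ _ _ (by omega) (by split_ifs <;> omega) (by omega),
      ev_addT _ _ _ _ _ _ _ _ _ _ (by omega) (by omega) (by omega),
      ev_addT _ _ _ _ _ _ _ _ _ _ (by omega) (by omega) (by omega),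
      ev_addT _ _ _ _ _ _ _ _ _ _ (by omega) (by omega) (by omega)]
    have m01 : e (if a ≤ 2 then 0 else 1) = E (max l0 l1) := by
      rw [E_max]; split_ifs <;> rfl
    have m12 : e (if b ≤ 2 then 1 else 2) = E (max l1 l2) := by
      rw [E_max]; split_ifs <;> rfl
    have m23 : e (if c ≤ 2 then 2 else 3) = E (max l2 l3) := by
      rw [E_max]; split_ifs <;> rfl
    rw [m01, m12, m23, e0, e1, e2, e3]
    rw [F_eq (max l0 l1) l2 l3 _ _ (sgn_max_left _ _ _) (sgn_eq_sg _ _),
      F_eq l1 l2 l3 _ _ (sgn_eq_sg _ _) (sgn_eq_sg _ _),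
      F_eq l0 l1 (max l2 l3) _ _ (sgn_eq_sg _ _) (sgn_max_right _ _ _),
      F_eq (l0 + 1) (max l0 l1) l2 _ _ (sgn_up _ _) (sgn_max_left _ _ _),
      F_eq (max l0 l1) (l1 + 1) (max l1 l2) _ _ (sgn_down _ _) (sgn_up _ _),
      F_eq l0 (max l1 l2) (l2 + 1) _ _ (sgn_max_right _ _ _) (sgn_down _ _),
      F_eq l0 l1 l2 _ _ (sgn_eq_sg _ _) (sgn_eq_sg _ _)]
    have hG : ∀ x y z : ℤ, G x y z = TG (sg (cls x y)) (sg (cls y z)) 0 * E x
        + TG (sg (cls x y)) (sg (cls y z)) 1 * E y + TG (sg (cls x y)) (sg (cls y z)) 2 * E z := by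
      intro x y z; unfold G; rw [sgn_eq_sg, sgn_eq_sg]
    rw [hG l0 l1 l2, hG l1 l2 l3]
    rw [E_add_one, E_add_one, E_add_one]
    rw [← ha, ← hb, ← hc, ← hu, ← hv]
    push_cast
    ring
  rw [hrow]
  have cls5 : ∀ x y : ℤ, cls x y < 5 := by
    intro x y; rcases cls_cases x y with h | h | h | h | h <;> omega
  have sgn3 : ∀ x y : ℤ, sgn x y < 3 := by
    intro x y; unfold sgn; split_ifs <;> omega
  obtain ⟨m, hm⟩ := chk_all a b c u v (cls5 _ _) (cls5 _ _) (cls5 _ _) (sgn3 _ _) (sgn3 _ _)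
    (compat_cls _ _ _) (compat_cls _ _ _)
  unfold chk at hm
  simp only [Bool.and_eq_true, Bool.or_eq_true, beq_iff_eq, nonneg_iff, List.all_eq_true,
    List.mem_range] at hm
  obtain ⟨⟨⟨⟨⟨hm1, hm2⟩, hm3⟩, hm4⟩, hm5⟩, hm6⟩ := hm
  have k1 := ev_con5 e l0 l1 0 1 (by omega) (by omega) e0 e1 m.1
    (by rw [or_assoc, or_assoc] at hm1; exact hm1)
  have k2 := ev_con5 e l1 l2 1 2 (by omega) (by omega) e1 e2 m.2.1
    (by rw [or_assoc, or_assoc] at hm2; exact hm2)
  have k3 := ev_con5 e l2 l3 2 3 (by omega) (by omega) e2 e3 m.2.2.1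
    (by rw [or_assoc, or_assoc] at hm3; exact hm3)
  have k4 := ev_con3 e l0 l2 0 2 (by omega) (by omega) e0 e2 m.2.2.2.1 hm4
  have k5 := ev_con3 e l1 l3 1 3 (by omega) (by omega) e1 e3 m.2.2.2.2 hm5
  have htot : ev e (row a b c u v) + m.1 * ev e (con5 a 0 1) + m.2.1 * ev e (con5 b 1 2)
      + m.2.2.1 * ev e (con5 c 2 3) + m.2.2.2.1 * ev e (con3 u 0 2)
      + m.2.2.2.2 * ev e (con3 v 1 3) ≤ 0 := by
    unfold ev
    simp only [Finset.mul_sum, ← Finset.sum_add_distrib]
    refine Finset.sum_nonpos fun j hj => ?_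
    have h6 := nonpos_imp _ (hm6 j (Finset.mem_range.1 hj))
    have h7 : ((row a b c u v j + m.1 * con5 a 0 1 j + m.2.1 * con5 b 1 2 j
      + m.2.2.1 * con5 c 2 3 j + m.2.2.2.1 * con3 u 0 2 j + m.2.2.2.2 * con3 v 1 3 j : ℤ) : ℝ)
        ≤ 0 := by exact_mod_cast h6
    push_cast at h7
    have := mul_nonpos_of_nonpos_of_nonneg h7 (epos j)
    linarith
  linarith

end Pool.MP4bb68cOne
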