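import Mathlib
import Pool.Agent.Work.MP_4bb68c_d1.URow

/-!
# Pointwise bounds of the weights `F` and `G`
-/

namespace Pool.MP4bb68cOne

open UCert

theorem sgn_cases (x y : ℤ) : (sgn x y = 0 ∧ y < x) ∨ (sgn x y = 1 ∧ x = y) ∨
    (sgn x y = 2 ∧ x < y) := by
  unfold sgn; split_ifs <;> omega

theorem F_lower (l0 l1 l2 : ℤ) : 25000 * E l0 ≤ F l0 l1 l2 ∧ 25000 * E l1 ≤ F l0 l1 l2 ∧
    25000 * E l2 ≤ F l0 l1 l2 := by
  have p0 := E_pos l0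
  have p1 := E_pos l1
  have p2 := E_pos l2
  unfold F
  rcases sgn_cases l0 l1 with ⟨h, h'⟩ | ⟨h, h'⟩ | ⟨h, h'⟩ <;>
  rcases sgn_cases l1 l2 with ⟨k, k'⟩ | ⟨k, k'⟩ | ⟨k, k'⟩ <;> rw [h, k]
  · have a := E_step (show l1 + 1 ≤ l0 by omega)
    have b := E_step (show l2 + 1 ≤ l1 by omega)
    norm_num [TF, TFl]
    refine ⟨?_, ?_, ?_⟩ <;> nlinarith
  · have a := E_step (show l1 + 1 ≤ l0 by omega)
    subst k'
    norm_num [TF, TFl]
    refine ⟨?_, ?_⟩ <;> nlinarith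
  · have a := E_step (show l1 + 1 ≤ l0 by omega)
    have b := E_step (show l1 + 1 ≤ l2 by omega)
    norm_num [TF, TFl]
    refine ⟨?_, ?_, ?_⟩ <;> nlinarith
  · subst h'
    have b := E_step (show l2 + 1 ≤ l0 by omega)
    norm_num [TF, TFl]
    refine ⟨?_, ?_⟩ <;> nlinarith
  · subst h'
    subst k'
    norm_num [TF, TFl]
    nlinarith
  · subst h'
    have b := E_step (show l0 + 1 ≤ l2 by omega)
    norm_num [TF, TFl]
    refine ⟨?_, ?_⟩ <;> nlinarith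
  · have a := E_step (show l0 + 1 ≤ l1 by omega)
    have b := E_step (show l2 + 1 ≤ l1 by omega)
    norm_num [TF, TFl]
    refine ⟨?_, ?_, ?_⟩ <;> nlinarith
  · have a := E_step (show l0 + 1 ≤ l1 by omega)
    subst k'
    norm_num [TF, TFl]
    refine ⟨?_, ?_⟩ <;> nlinarith
  · have a := E_step (show l0 + 1 ≤ l1 by omega)
    have b := E_step (show l1 + 1 ≤ l2 by omega)
    norm_num [TF, TFl]
    refine ⟨?_, ?_, ?_⟩ <;> nlinarith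

theorem F_upper (l0 l1 l2 : ℤ) : F l0 l1 l2 ≤ 100000 * (E l0 + E l1 + E l2) := by
  have p0 := E_pos l0
  have p1 := E_pos l1
  have p2 := E_pos l2
  unfold F
  rcases sgn_cases l0 l1 with ⟨h, h'⟩ | ⟨h, h'⟩ | ⟨h, h'⟩ <;>
  rcases sgn_cases l1 l2 with ⟨k, k'⟩ | ⟨k, k'⟩ | ⟨k, k'⟩ <;> rw [h, k] <;>
    norm_num [TF, TFl] <;> nlinarith

theorem F_nonneg (l0 l1 l2 : ℤ) : 0 ≤ F l0 l1 l2 := by
  have := (F_lower l0 l1 l2).1
  have := E_pos l0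
  linarith

theorem G_bound (l0 l1 l2 : ℤ) : |G l0 l1 l2| ≤ 100000 * (E l0 + E l1 + E l2) := by
  have p0 := E_pos l0
  have p1 := E_pos l1
  have p2 := E_pos l2
  rw [abs_le]
  unfold G
  rcases sgn_cases l0 l1 with ⟨h, h'⟩ | ⟨h, h'⟩ | ⟨h, h'⟩ <;>
  rcases sgn_cases l1 l2 with ⟨k, k'⟩ | ⟨k, k'⟩ | ⟨k, k'⟩ <;> rw [h, k] <;>
    norm_num [TG, TGl] <;> constructor <;> nlinarith

end Pool.MP4bb68cOne
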