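import Mathlib
import Pool.Agent.Work.MP_4bb68c_d1.Basic
import Pool.Agent.Work.MP_4bb68c_d1.UBound

/-!
# The dual process and the weights: one slot
-/

open MeasureTheory ProbabilityTheory Filter Topology
open scoped NNReal ENNReal

namespace Pool.MP4bb68cOne

open Pool.MP4bb68c

/-- The dual update: `χ` marks the updated sites. -/
def dual (χ : ℤ → Bool) (g : ℤ → ℤ) (y : ℤ) : ℤ :=
  max (if χ y = true then g y + 1 else g y)
    (max (if χ (y + 1) = true then g (y + 1) else g y)
      (if χ (y - 1) = true then g (y - 1) else g y))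

theorem dual_congr {χ χ' : ℤ → Bool} (g : ℤ → ℤ) {y : ℤ} (h0 : χ y = χ' y)
    (h1 : χ (y + 1) = χ' (y + 1)) (h2 : χ (y - 1) = χ' (y - 1)) : dual χ g y = dual χ' g y := by
  unfold dual
  rw [h0, h1, h2]

theorem E_dual_le (χ : ℤ → Bool) (g : ℤ → ℤ) (y : ℤ) :
    E (dual χ g y) ≤ 4 / 3 * (E (g (y - 1)) + E (g y) + E (g (y + 1))) := by
  have p0 := E_pos (g (y - 1))
  have p1 := E_pos (g y)
  have p2 := E_pos (g (y + 1))
  have h : dual χ g y ≤ g y + 1 ∨ dual χ g y ≤ g (y + 1) ∨ dual χ g y ≤ g (y - 1) := by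
    unfold dual
    split_ifs <;> omega
  rcases h with h | h | h
  · have := E_mono h
    rw [E_add_one] at this
    linarith
  · have := E_mono h
    linarith
  · have := E_mono h
    linarith

/-! ### The sup functional -/

/-- The sup of the exponential weights of `g + h`. -/
noncomputable def psi (g : ℤ → ℤ) (h : Height 1) : ℝ≥0∞ :=
  ⨆ y : ℤ, ENNReal.ofReal (E (g y + h (pt y)))

theorem le_psi (g : ℤ → ℤ) (h : Height 1) {y n : ℤ} (hn : n ≤ g y + h (pt y)) :
    ENNReal.ofReal (E n) ≤ psi g h :=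
  (ENNReal.ofReal_le_ofReal (E_mono hn)).trans
    (le_iSup (fun y : ℤ => ENNReal.ofReal (E (g y + h (pt y)))) y)

theorem psi_slot (g : ℤ → ℤ) (ξ : Site 1 → Bool) (h : Height 1) :
    psi g (slotStep ξ h) ≤ psi (dual (fun z => ξ (pt z)) g) h := by
  refine iSup_le fun y => ?_
  rw [slotStep_pt]
  by_cases hy : ξ (pt y) = true
  · rw [if_pos hy]
    rcases le_total (h (pt (y + 1))) (h (pt (y - 1))) with h1 | h1
    · rw [max_eq_right h1]
      rcases le_total (h (pt y) + 1) (h (pt (y - 1))) with h2 | h2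
      · rw [max_eq_right h2]
        refine le_psi _ _ (y := y - 1) ?_
        unfold dual
        have e : y - 1 + 1 = y := by ring
        rw [e, if_pos hy]
        omega
      · rw [max_eq_left h2]
        refine le_psi _ _ (y := y) ?_
        unfold dual
        rw [if_pos hy]
        omega
    · rw [max_eq_left h1]
      rcases le_total (h (pt y) + 1) (h (pt (y + 1))) with h2 | h2
      · rw [max_eq_right h2]
        refine le_psi _ _ (y := y + 1) ?_
        unfold dual
        have e : y + 1 - 1 = y := by ring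
        rw [e, if_pos hy]
        omega
      · rw [max_eq_left h2]
        refine le_psi _ _ (y := y) ?_
        unfold dual
        rw [if_pos hy]
        omega
  · rw [if_neg hy]
    refine le_psi _ _ (y := y) ?_
    unfold dual
    rw [if_neg hy]
    omega

theorem measurable_psi_aux :
    Measurable (fun p : (ℤ → ℤ) × Height 1 => psi p.1 p.2) := by
  unfold psi
  refine Measurable.iSup fun y => ?_
  have h1 : Measurable (fun p : (ℤ → ℤ) × Height 1 => p.1 y + p.2 (pt y)) :=
    ((measurable_pi_apply y).comp measurable_fst).add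
      ((measurable_pi_apply (pt y)).comp measurable_snd)
  exact ENNReal.measurable_ofReal.comp ((Measurable.of_discrete (f := E)).comp h1)

theorem measurable_psi (g : ℤ → ℤ) : Measurable (psi g) :=
  measurable_psi_aux.comp (f := fun h : Height 1 => (g, h)) (by fun_prop)

theorem measurable_dual (g : ℤ → ℤ) :
    Measurable (fun ξ : Site 1 → Bool => dual (fun z => ξ (pt z)) g) := by
  rw [measurable_pi_iff]
  intro y
  have h1 : Measurable (fun ξ : Site 1 → Bool => ((ξ (pt y), ξ (pt (y + 1)), ξ (pt (y - 1))) :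
      Bool × Bool × Bool)) := by fun_prop
  exact (Measurable.of_discrete (f := fun b : Bool × Bool × Bool =>
    max (if b.1 = true then g y + 1 else g y)
    (max (if b.2.1 = true then g (y + 1) else g y)
      (if b.2.2 = true then g (y - 1) else g y)))).comp h1

/-! ### The total weight -/

/-- The total weight. -/
noncomputable def Z (g : ℤ → ℤ) : ℝ≥0∞ :=
  ∑' x : ℤ, ENNReal.ofReal (E x * F (g x) (g (x + 1)) (g (x + 2)))

attribute [local irreducible] E F in
theorem measurable_Z : Measurable Z := by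
  unfold Z
  refine Measurable.tsum fun x => ?_
  have h1 : Measurable (fun g : ℤ → ℤ => ((g x, g (x + 1), g (x + 2)) : ℤ × ℤ × ℤ)) := by
    fun_prop
  have h2 : Measurable (fun l : ℤ × ℤ × ℤ => ENNReal.ofReal (E x * F l.1 l.2.1 l.2.2)) :=
    Measurable.of_discrete
  exact h2.comp h1

/-- The sites which influence the weight at `x`. -/
def win (x : ℤ) : Finset (Site 1) := {pt (x - 1), pt x, pt (x + 1), pt (x + 2), pt (x + 3)}

/-- The weight at `x` after the update of the sites of `A`. -/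
noncomputable def Phi (g : ℤ → ℤ) (x : ℤ) (A : Finset (Site 1)) : ℝ :=
  F (dual (fun z => decide (pt z ∈ A)) g x) (dual (fun z => decide (pt z ∈ A)) g (x + 1))
    (dual (fun z => decide (pt z ∈ A)) g (x + 2))

/-- The sum over the five neighbouring sites. -/
noncomputable def S5 (g : ℤ → ℤ) (x : ℤ) : ℝ :=
  E (g (x - 1)) + E (g x) + E (g (x + 1)) + E (g (x + 2)) + E (g (x + 3))

theorem Phi_nonneg (g : ℤ → ℤ) (x : ℤ) (A : Finset (Site 1)) : 0 ≤ Phi g x A := F_nonneg _ _ _

theorem Phi_le (g : ℤ → ℤ) (x : ℤ) (A : Finset (Site 1)) : Phi g x A ≤ 400000 * S5 g x := by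
  unfold Phi S5
  set χ : ℤ → Bool := fun z => decide (pt z ∈ A)
  have h := F_upper (dual χ g x) (dual χ g (x + 1)) (dual χ g (x + 2))
  have h0 := E_dual_le χ g x
  have h1 := E_dual_le χ g (x + 1)
  have h2 := E_dual_le χ g (x + 2)
  have e1 : x + 1 - 1 = x := by ring
  have e2 : x + 1 + 1 = x + 2 := by ring
  have e3 : x + 2 - 1 = x + 1 := by ring
  have e4 : x + 2 + 1 = x + 3 := by ring
  rw [e1, e2] at h1
  rw [e3, e4] at h2
  have p0 := E_pos (g (x - 1))
  have p1 := E_pos (g x)
  have p2 := E_pos (g (x + 1))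
  have p3 := E_pos (g (x + 2))
  have p4 := E_pos (g (x + 3))
  linarith

theorem mem_win (x : ℤ) {z : ℤ} (h1 : x - 1 ≤ z) (h2 : z ≤ x + 3) : pt z ∈ win x := by
  unfold win
  simp only [Finset.mem_insert, Finset.mem_singleton, pt_inj]
  omega

attribute [local irreducible] E F win in
theorem Phi_filter (g : ℤ → ℤ) (x : ℤ) (ξ : Site 1 → Bool) :
    Phi g x ((win x).filter (fun z => ξ z = true)) =
      F (dual (fun z => ξ (pt z)) g x) (dual (fun z => ξ (pt z)) g (x + 1))
        (dual (fun z => ξ (pt z)) g (x + 2)) := by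
  have key : ∀ z : ℤ, pt z ∈ win x →
      decide (pt z ∈ (win x).filter (fun z => ξ z = true)) = ξ (pt z) := by
    intro z hz
    cases hξ : ξ (pt z) <;> simp [hz, hξ]
  generalize (win x).filter (fun z => ξ z = true) = A at key
  have d : ∀ y : ℤ, x ≤ y → y ≤ x + 2 → dual (fun z => decide (pt z ∈ A)) g y =
      dual (fun z => ξ (pt z)) g y := by
    intro y h1 h2
    refine dual_congr g ?_ ?_ ?_
    · exact key _ (mem_win x (by omega) (by omega))
    · exact key _ (mem_win x (by omega) (by omega))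
    · exact key _ (mem_win x (by omega) (by omega))
  unfold Phi
  rw [d x (by omega) (by omega), d (x + 1) (by omega) (by omega), d (x + 2) (by omega) (by omega)]

theorem Phi_empty (g : ℤ → ℤ) (x : ℤ) : Phi g x ∅ = F (g x) (g (x + 1)) (g (x + 2)) := by
  unfold Phi dual
  simp

theorem dual_single (g : ℤ → ℤ) (z y : ℤ) :
    dual (fun w => decide (pt w ∈ ({pt z} : Finset (Site 1)))) g y =
      if y = z then g y + 1 else if y + 1 = z ∨ y - 1 = z then max (g y) (g z) else g y := by
  unfold dual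
  simp only [Finset.mem_singleton, pt_inj, decide_eq_true_eq]
  rcases eq_or_ne y z with rfl | h0
  · have h1 : ¬ (y + 1 = y) := by omega
    have h2 : ¬ (y - 1 = y) := by omega
    simp [h1, h2]
  · rw [if_neg h0, if_neg h0]
    rcases eq_or_ne (y + 1) z with h1 | h1
    · subst h1
      have h2 : ¬ (y - 1 = y + 1) := by omega
      simp [h2, max_comm]
    · rw [if_neg h1]
      rcases eq_or_ne (y - 1) z with h2 | h2
      · subst h2
        simp
      · simp [h1, h2]

theorem Phi_m1 (g : ℤ → ℤ) (x : ℤ) : Phi g x {pt (x - 1)} =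
    F (max (g (x - 1)) (g x)) (g (x + 1)) (g (x + 2)) := by
  unfold Phi
  rw [dual_single, dual_single, dual_single]
  have a1 : ¬ (x = x - 1) := by omega
  have a2 : ¬ (x + 1 = x - 1) := by omega
  have a3 : ¬ (x + 1 + 1 = x - 1 ∨ x + 1 - 1 = x - 1) := by omega
  have a4 : ¬ (x + 2 = x - 1) := by omega
  have a5 : ¬ (x + 2 + 1 = x - 1 ∨ x + 2 - 1 = x - 1) := by omega
  have a6 : x + 1 = x - 1 ∨ x - 1 = x - 1 := Or.inr rfl
  rw [if_neg a1, if_pos a6, if_neg a2, if_neg a3, if_neg a4, if_neg a5, max_comm]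

theorem Phi_0 (g : ℤ → ℤ) (x : ℤ) : Phi g x {pt x} =
    F (g x + 1) (max (g x) (g (x + 1))) (g (x + 2)) := by
  unfold Phi
  rw [dual_single, dual_single, dual_single]
  have a2 : ¬ (x + 1 = x) := by omega
  have a3 : (x + 1 + 1 = x ∨ x + 1 - 1 = x) := by omega
  have a4 : ¬ (x + 2 = x) := by omega
  have a5 : ¬ (x + 2 + 1 = x ∨ x + 2 - 1 = x) := by omega
  rw [if_pos rfl, if_neg a2, if_pos a3, if_neg a4, if_neg a5, max_comm]

theorem Phi_1 (g : ℤ → ℤ) (x : ℤ) : Phi g x {pt (x + 1)} =
    F (max (g x) (g (x + 1))) (g (x + 1) + 1) (max (g (x + 1)) (g (x + 2))) := by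
  unfold Phi
  rw [dual_single, dual_single, dual_single]
  have a1 : ¬ (x = x + 1) := by omega
  have a3 : (x + 1 = x + 1 ∨ x - 1 = x + 1) := by omega
  have a4 : ¬ (x + 2 = x + 1) := by omega
  have a5 : (x + 2 + 1 = x + 1 ∨ x + 2 - 1 = x + 1) := by omega
  rw [if_neg a1, if_pos a3, if_pos rfl, if_neg a4, if_pos a5, max_comm (g (x + 2))]

theorem Phi_2 (g : ℤ → ℤ) (x : ℤ) : Phi g x {pt (x + 2)} =
    F (g x) (max (g (x + 1)) (g (x + 2))) (g (x + 2) + 1) := by
  unfold Phi
  rw [dual_single, dual_single, dual_single]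
  have a1 : ¬ (x = x + 2) := by omega
  have a2 : ¬ (x + 1 = x + 2 ∨ x - 1 = x + 2) := by omega
  have a4 : ¬ (x + 1 = x + 2) := by omega
  have a5 : (x + 1 + 1 = x + 2 ∨ x + 1 - 1 = x + 2) := by omega
  rw [if_neg a1, if_neg a2, if_neg a4, if_pos a5, if_pos rfl]

theorem Phi_3 (g : ℤ → ℤ) (x : ℤ) : Phi g x {pt (x + 3)} =
    F (g x) (g (x + 1)) (max (g (x + 2)) (g (x + 3))) := by
  unfold Phi
  rw [dual_single, dual_single, dual_single]
  have a1 : ¬ (x = x + 3) := by omega
  have a2 : ¬ (x + 1 = x + 3 ∨ x - 1 = x + 3) := by omega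
  have a3 : ¬ (x + 1 = x + 3) := by omega
  have a4 : ¬ (x + 1 + 1 = x + 3 ∨ x + 1 - 1 = x + 3) := by omega
  have a5 : ¬ (x + 2 = x + 3) := by omega
  have a6 : (x + 2 + 1 = x + 3 ∨ x + 2 - 1 = x + 3) := by omega
  rw [if_neg a1, if_neg a2, if_neg a3, if_neg a4, if_neg a5, if_pos a6]

theorem sum_win (x : ℤ) (u : Site 1 → ℝ) : ∑ z ∈ win x, u z =
    u (pt (x - 1)) + (u (pt x) + (u (pt (x + 1)) + (u (pt (x + 2)) + u (pt (x + 3))))) := by
  unfold win
  rw [Finset.sum_insert, Finset.sum_insert, Finset.sum_insert, Finset.sum_insert,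
    Finset.sum_singleton] <;>
  · simp only [Finset.mem_insert, Finset.mem_singleton, pt_inj]
    omega

theorem card_win (x : ℤ) : (win x).card = 5 := by
  unfold win
  rw [Finset.card_insert_of_notMem, Finset.card_insert_of_notMem, Finset.card_insert_of_notMem,
    Finset.card_insert_of_notMem, Finset.card_singleton] <;>
  · simp only [Finset.mem_insert, Finset.mem_singleton, pt_inj]
    omega

/-- The expected weight at `x` after one slot. -/
theorem ebin_Phi_le {p : ℝ} (h0 : 0 ≤ p) (h1 : p ≤ 1) (g : ℤ → ℤ) (x : ℤ) :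
    ebin p (win x) (Phi g x) ≤ Phi g x ∅ + p * ((Phi g x {pt (x - 1)} - Phi g x ∅) +
      ((Phi g x {pt x} - Phi g x ∅) + ((Phi g x {pt (x + 1)} - Phi g x ∅) +
        ((Phi g x {pt (x + 2)} - Phi g x ∅) + (Phi g x {pt (x + 3)} - Phi g x ∅))))) +
      10000000 * p ^ 2 * S5 g x := by
  have := ebin_le_lin h0 h1 (win x) (Phi g x) (fun A _ => Phi_nonneg g x A)
    (fun A _ => Phi_le g x A)
  rw [sum_win, card_win] at this
  push_cast at this
  linarith

end Pool.MP4bb68cOne
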