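import Mathlib
import Pool.Agent.Work.MP_4bb68c_d1.Basic
import Pool.Agent.Work.MP_4bb68c_d1.UBound
import Pool.Agent.Work.MP_4bb68c_d1.UStep

/-!
# The total weight after one slot
-/

open MeasureTheory ProbabilityTheory Filter Topology
open scoped NNReal ENNReal

namespace Pool.MP4bb68cOne

open Pool.MP4bb68c

theorem E_add (m n : ℤ) : E (m + n) = E m * E n := by
  unfold E
  rw [zpow_add₀ (by norm_num)]

theorem hasSum_shift {f : ℤ → ℝ} {a : ℝ} (h : HasSum f a) (c : ℤ) :
    HasSum (fun x => f (x + c)) a :=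
  (Equiv.addRight c).hasSum_iff.2 h

theorem hasSum_E_shift {g : ℤ → ℤ} {T : ℝ} (h : HasSum (fun x => E x * E (g x)) T) (c : ℤ) :
    HasSum (fun x => E x * E (g (x + c))) (E (-c) * T) := by
  have h1 := (hasSum_shift h c).mul_left (E (-c))
  refine h1.congr_fun ?_
  intro x
  have : E (x + c) = E c * E x := by rw [E_add]; ring
  have h2 : E (-c) * E c = 1 := by
    rw [← E_add, neg_add_cancel]
    simp [E]
  rw [this]
  calc E x * E (g (x + c)) = (E (-c) * E c) * (E x * E (g (x + c))) := by rw [h2, one_mul]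
    _ = _ := by ring

theorem hasSum_S5 {g : ℤ → ℤ} {T : ℝ} (h : HasSum (fun x => E x * E (g x)) T) :
    HasSum (fun x => E x * S5 g x)
      ((4 / 3 + 1 + 3 / 4 + 9 / 16 + 27 / 64) * T) := by
  have e1 : E (-(-1)) = 4 / 3 := by unfold E; norm_num
  have e2 : E (-1) = 3 / 4 := by unfold E; norm_num
  have e3 : E (-2) = 9 / 16 := by unfold E; norm_num
  have e4 : E (-3) = 27 / 64 := by unfold E; norm_num
  have h0 := hasSum_E_shift h (-1)
  have h1 := hasSum_E_shift h 1
  have h2 := hasSum_E_shift h 2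
  have h3 := hasSum_E_shift h 3
  rw [e1] at h0
  rw [e2] at h1
  rw [e3] at h2
  rw [e4] at h3
  have h4 := (((h0.add h).add h1).add h2).add h3
  have e5 : 4 / 3 * T + T + 3 / 4 * T + 9 / 16 * T + 27 / 64 * T =
      (4 / 3 + 1 + 3 / 4 + 9 / 16 + 27 / 64) * T := by ring
  rw [e5] at h4
  refine h4.congr_fun ?_
  intro x
  unfold S5
  have : x + -1 = x - 1 := by ring
  simp only [this]
  ring

attribute [local irreducible] E F G UCert.TF UCert.TG

/-- The weights of single updates are summable. -/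
theorem summable_Phi {g : ℤ → ℤ} {T : ℝ} (h : HasSum (fun x => E x * E (g x)) T)
    (A : ℤ → Finset (Site 1)) : Summable (fun x => E x * Phi g x (A x)) := by
  refine Summable.of_nonneg_of_le (fun x => mul_nonneg (E_pos x).le (Phi_nonneg _ _ _))
    (f := fun x => 400000 * (E x * S5 g x)) ?_ ((hasSum_S5 h).summable.mul_left _)
  intro x
  have := mul_le_mul_of_nonneg_left (Phi_le g x (A x)) (E_pos x).le
  linarith

theorem summable_G {g : ℤ → ℤ} {T : ℝ} (h : HasSum (fun x => E x * E (g x)) T) :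
    Summable (fun x => E x * G (g x) (g (x + 1)) (g (x + 2))) := by
  refine Summable.of_norm_bounded (g := fun x => 100000 * (E x * S5 g x))
    ((hasSum_S5 h).summable.mul_left _) ?_
  intro x
  rw [Real.norm_eq_abs, abs_mul, abs_of_pos (E_pos x)]
  have h1 := G_bound (g x) (g (x + 1)) (g (x + 2))
  have h2 : E (g x) + E (g (x + 1)) + E (g (x + 2)) ≤ S5 g x := by
    unfold S5
    have := E_pos (g (x - 1))
    have := E_pos (g (x + 3))
    linarith
  have h3 : |G (g x) (g (x + 1)) (g (x + 2))| ≤ 100000 * S5 g x := by linarith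
  have := mul_le_mul_of_nonneg_left h3 (E_pos x).le
  linarith

/-- The expected change of the total weight. -/
theorem sum_change {g : ℤ → ℤ} {T U V0 V1 V2 V3 V4 : ℝ}
    (h : HasSum (fun x => E x * E (g x)) T)
    (hU : HasSum (fun x => E x * Phi g x ∅) U)
    (h0 : HasSum (fun x => E x * Phi g x {pt (x - 1)}) V0)
    (h1 : HasSum (fun x => E x * Phi g x {pt x}) V1)
    (h2 : HasSum (fun x => E x * Phi g x {pt (x + 1)}) V2)
    (h3 : HasSum (fun x => E x * Phi g x {pt (x + 2)}) V3)
    (h4 : HasSum (fun x => E x * Phi g x {pt (x + 3)}) V4) :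
    (V0 - U) + ((V1 - U) + ((V2 - U) + ((V3 - U) + (V4 - U)))) ≤ 837 / 1000 * U := by
  have hG := (summable_G h).hasSum
  set GG := ∑' x, E x * G (g x) (g (x + 1)) (g (x + 2)) with hGG
  have H := ((((((hasSum_shift (h0.sub hU) 1).add (h1.sub hU)).add (h2.sub hU)).add
    (h3.sub hU)).add (h4.sub hU)).sub (hU.mul_left (837 / 1000))).add (hG.sub (hasSum_shift hG 1))
  have hz : HasSum (fun _ : ℤ => (0 : ℝ)) 0 := hasSum_zero
  have hle := hasSum_le (fun x => ?_) H hz
  · linarith
  · have hr := row_le (g x) (g (x + 1)) (g (x + 2)) (g (x + 3))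
    have a1 : x + 1 + 1 = x + 2 := by ring
    have a2 : x + 1 + 2 = x + 3 := by ring
    have a3 : x + 1 - 1 = x := by ring
    simp only [Phi_0, Phi_1, Phi_2, Phi_3, Phi_empty, a1, a2, a3]
    have hE : E (x + 1) = 4 / 3 * E x := E_add_one x
    rw [hE]
    have hpos := E_pos x
    have := mul_nonpos_of_nonneg_of_nonpos hpos.le hr
    have c1 : pt x = pt (x + 1 - 1) := by rw [a3]
    rw [c1, Phi_m1, a3, a1, a2]
    nlinarith

end Pool.MP4bb68cOne
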