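import Mathlib
import Pool.Agent.Work.MP_4bb68c_d1.Basic
import Pool.Agent.Work.MP_4bb68c_d1.UBound
import Pool.Agent.Work.MP_4bb68c_d1.UStep
import Pool.Agent.Work.MP_4bb68c_d1.USum

/-!
# The mean height from the initial function `x`
-/

open MeasureTheory ProbabilityTheory Filter Topology
open scoped NNReal ENNReal

namespace Pool.MP4bb68cOne

open Pool.MP4bb68c

attribute [local irreducible] E F G UCert.TF UCert.TG

theorem lintegral_term (δ : ℝ≥0) (g : ℤ → ℤ) (x : ℤ) :
    ∫⁻ ξ, ENNReal.ofReal (E x * F (dual (fun z => ξ (pt z)) g x)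
        (dual (fun z => ξ (pt z)) g (x + 1)) (dual (fun z => ξ (pt z)) g (x + 2)))
        ∂(siteLaw 1 δ) =
      ENNReal.ofReal (E x * ebin (1 - Real.exp (-δ)) (win x) (Phi g x)) := by
  have h1 : ∀ ξ : Site 1 → Bool, E x * F (dual (fun z => ξ (pt z)) g x)
        (dual (fun z => ξ (pt z)) g (x + 1)) (dual (fun z => ξ (pt z)) g (x + 2)) =
      E x * Phi g x ((win x).filter (fun z => ξ z = true)) := by
    intro ξ
    rw [Phi_filter]
  simp_rw [h1]
  rw [← integral_filter δ (win x) (Phi g x), ← integral_const_mul,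
    ofReal_integral_eq_lintegral_ofReal ((integrable_filter δ (win x) (Phi g x)).const_mul _)]
  exact Filter.Eventually.of_forall fun ξ => mul_nonneg (E_pos x).le (Phi_nonneg _ _ _)

theorem one_sub_exp_bounds (δ : ℝ≥0) : 0 ≤ 1 - Real.exp (-δ) ∧ 1 - Real.exp (-δ) ≤ 1 ∧
    1 - Real.exp (-(δ : ℝ)) ≤ δ := by
  have h1 : Real.exp (-(δ : ℝ)) ≤ 1 := Real.exp_le_one_iff.2 (neg_nonpos.2 δ.2)
  have h2 := Real.exp_pos (-(δ : ℝ))
  have h3 := Real.add_one_le_exp (-(δ : ℝ))
  refine ⟨by linarith, by linarith, by linarith⟩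

theorem Z_step (δ : ℝ≥0) (g : ℤ → ℤ) :
    ∫⁻ ξ, Z (dual (fun z => ξ (pt z)) g) ∂(siteLaw 1 δ) ≤
      ENNReal.ofReal (1 + 837 / 1000 * δ + 2000 * δ ^ 2) * Z g := by
  obtain ⟨p0, p1, pδ⟩ := one_sub_exp_bounds δ
  set p : ℝ := 1 - Real.exp (-δ) with hp
  have hΛ : 0 < 1 + 837 / 1000 * (δ : ℝ) + 2000 * (δ : ℝ) ^ 2 := by positivity
  by_cases hZ : Z g = ∞
  · rw [hZ, ENNReal.mul_top]
    · exact le_top
    · exact (ENNReal.ofReal_pos.2 hΛ).ne'
  have hterm : ∀ x, 0 ≤ E x * F (g x) (g (x + 1)) (g (x + 2)) := fun x =>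
    mul_nonneg (E_pos x).le (F_nonneg _ _ _)
  have hs : Summable (fun x => E x * F (g x) (g (x + 1)) (g (x + 2))) := by
    have := ENNReal.summable_toReal hZ
    refine this.congr fun x => ?_
    rw [ENNReal.toReal_ofReal (hterm x)]
  have hsT : Summable (fun x => E x * E (g x)) := by
    refine Summable.of_nonneg_of_le (fun x => mul_nonneg (E_pos x).le (E_pos _).le) ?_ hs
    intro x
    have h1 := (F_lower (g x) (g (x + 1)) (g (x + 2))).1
    have h2 := E_pos (g x)
    exact mul_le_mul_of_nonneg_left (by linarith) (E_pos x).le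
  have hT := hsT.hasSum
  set T := ∑' x, E x * E (g x) with hTdef
  have hU : HasSum (fun x => E x * Phi g x ∅) (∑' x, E x * F (g x) (g (x + 1)) (g (x + 2))) := by
    simp_rw [Phi_empty]
    exact hs.hasSum
  set U := ∑' x, E x * F (g x) (g (x + 1)) (g (x + 2)) with hUdef
  have hTU : 25000 * T ≤ U := by
    refine hasSum_le (fun x => ?_) (hT.mul_left 25000) hs.hasSum
    have h1 := (F_lower (g x) (g (x + 1)) (g (x + 2))).1
    have := mul_le_mul_of_nonneg_left h1 (E_pos x).le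
    linarith
  have hZU : Z g = ENNReal.ofReal U := by
    rw [hUdef, ENNReal.ofReal_tsum_of_nonneg hterm hs]
    rfl
  have h0 := (summable_Phi hT (fun x => {pt (x - 1)})).hasSum
  have h1 := (summable_Phi hT (fun x => {pt x})).hasSum
  have h2 := (summable_Phi hT (fun x => {pt (x + 1)})).hasSum
  have h3 := (summable_Phi hT (fun x => {pt (x + 2)})).hasSum
  have h4 := (summable_Phi hT (fun x => {pt (x + 3)})).hasSum
  have hch := sum_change hT hU h0 h1 h2 h3 h4
  set V0 := ∑' x, E x * Phi g x {pt (x - 1)}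
  set V1 := ∑' x, E x * Phi g x {pt x}
  set V2 := ∑' x, E x * Phi g x {pt (x + 1)}
  set V3 := ∑' x, E x * Phi g x {pt (x + 2)}
  set V4 := ∑' x, E x * Phi g x {pt (x + 3)}
  have H := (hU.add (((h0.sub hU).add ((h1.sub hU).add ((h2.sub hU).add
    ((h3.sub hU).add (h4.sub hU))))).mul_left p)).add
      ((hasSum_S5 hT).mul_left (10000000 * p ^ 2))
  have hge : ∀ x, E x * ebin p (win x) (Phi g x) ≤
      E x * Phi g x ∅ + p * (E x * Phi g x {pt (x - 1)} - E x * Phi g x ∅ +
        (E x * Phi g x {pt x} - E x * Phi g x ∅ + (E x * Phi g x {pt (x + 1)} -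
          E x * Phi g x ∅ + (E x * Phi g x {pt (x + 2)} - E x * Phi g x ∅ +
            (E x * Phi g x {pt (x + 3)} - E x * Phi g x ∅))))) +
        10000000 * p ^ 2 * (E x * S5 g x) := by
    intro x
    have := mul_le_mul_of_nonneg_left (ebin_Phi_le p0 p1 g x) (E_pos x).le
    refine this.trans (le_of_eq ?_)
    ring
  have hebin : ∀ x, 0 ≤ E x * ebin p (win x) (Phi g x) := by
    intro x
    refine mul_nonneg (E_pos x).le ?_
    unfold ebin
    refine Finset.sum_nonneg fun A _ => ?_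
    exact mul_nonneg (mul_nonneg (pow_nonneg p0 _) (pow_nonneg (by linarith) _))
      (Phi_nonneg _ _ _)
  have hint : ∫⁻ ξ, Z (dual (fun z => ξ (pt z)) g) ∂(siteLaw 1 δ) =
      ∑' x, ENNReal.ofReal (E x * ebin p (win x) (Phi g x)) := by
    unfold Z
    rw [lintegral_tsum]
    · exact tsum_congr fun x => lintegral_term δ g x
    · intro x
      have hm : Measurable (fun g : ℤ → ℤ => ENNReal.ofReal
          (E x * F (g x) (g (x + 1)) (g (x + 2)))) := by
        have h1 : Measurable (fun g : ℤ → ℤ => ((g x, g (x + 1), g (x + 2)) : ℤ × ℤ × ℤ)) := by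
          fun_prop
        have h2 : Measurable (fun l : ℤ × ℤ × ℤ => ENNReal.ofReal (E x * F l.1 l.2.1 l.2.2)) :=
          Measurable.of_discrete
        exact h2.comp h1
      exact (hm.comp (measurable_dual g)).aemeasurable
  have hr0 := fun x => (hebin x).trans (hge x)
  rw [hint]
  refine (ENNReal.tsum_le_tsum fun x => ENNReal.ofReal_le_ofReal (hge x)).trans ?_
  rw [← ENNReal.ofReal_tsum_of_nonneg hr0 H.summable, H.tsum_eq, hZU,
    ← ENNReal.ofReal_mul hΛ.le]
  apply ENNReal.ofReal_le_ofReal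
  have hT0 : 0 ≤ T := tsum_nonneg fun x => mul_nonneg (E_pos x).le (E_pos _).le
  have hU0 : 0 ≤ U := tsum_nonneg hterm
  have q1 : p * (837 / 1000 * U) ≤ δ * (837 / 1000 * U) :=
    mul_le_mul_of_nonneg_right pδ (by positivity)
  have q2 := mul_le_mul_of_nonneg_left hch p0
  have q3 : p ^ 2 ≤ (δ : ℝ) ^ 2 := pow_le_pow_left₀ p0 pδ 2
  have q4 : 10000000 * p ^ 2 * ((4 / 3 + 1 + 3 / 4 + 9 / 16 + 27 / 64) * T) ≤
      2000 * (δ : ℝ) ^ 2 * U := by
    have q5 : p ^ 2 * T ≤ (δ : ℝ) ^ 2 * T := mul_le_mul_of_nonneg_right q3 hT0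
    have q6 : (δ : ℝ) ^ 2 * (25000 * T) ≤ (δ : ℝ) ^ 2 * U :=
      mul_le_mul_of_nonneg_left hTU (by positivity)
    have q7 : 0 ≤ (δ : ℝ) ^ 2 * T := by positivity
    nlinarith
  linarith

theorem moment_le (δ : ℝ≥0) (k : ℕ) : ∀ g : ℤ → ℤ,
    ∫⁻ h, psi g h ∂(lawK 1 (List.replicate k δ) (fun x => x 0)) ≤
      ENNReal.ofReal ((1 + 837 / 1000 * δ + 2000 * δ ^ 2) ^ k) * Z g := by
  have hΛ : 0 < 1 + 837 / 1000 * (δ : ℝ) + 2000 * (δ : ℝ) ^ 2 := by positivity
  induction k with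
  | zero =>
    intro g
    rw [List.replicate_zero, lawK_nil, lintegral_dirac' _ (measurable_psi g), pow_zero,
      ENNReal.ofReal_one, one_mul]
    unfold psi
    refine iSup_le fun y => ?_
    have h1 : ENNReal.ofReal (E (g y + (pt y) 0)) ≤
        ENNReal.ofReal (E y * F (g y) (g (y + 1)) (g (y + 2))) := by
      apply ENNReal.ofReal_le_ofReal
      rw [pt_apply, E_add]
      have h2 := (F_lower (g y) (g (y + 1)) (g (y + 2))).1
      have h3 := E_pos (g y)
      have h4 := mul_le_mul_of_nonneg_left (show E (g y) ≤ F (g y) (g (y + 1)) (g (y + 2)) by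
        linarith) (E_pos y).le
      linarith
    exact h1.trans (ENNReal.le_tsum y)
  | succ k ih =>
    intro g
    rw [List.replicate_succ, lawK_cons, Measure.lintegral_bind (Kernel.aemeasurable _)
      (measurable_psi g).aemeasurable]
    set L := lawK 1 (List.replicate k δ) (fun x => x 0) with hL
    have hm : Measurable (fun p : Height 1 × (Site 1 → Bool) =>
        psi (dual (fun z => p.2 (pt z)) g) p.1) :=
      measurable_psi_aux.comp (((measurable_dual g).comp measurable_snd).prodMk measurable_fst)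
    calc ∫⁻ h, ∫⁻ h', psi g h' ∂(stepK 1 δ h) ∂L
        = ∫⁻ h, ∫⁻ ξ, psi g (slotStep ξ h) ∂(siteLaw 1 δ) ∂L := by
          refine lintegral_congr fun h => ?_
          rw [stepK_apply, lintegral_map (measurable_psi g) (measurable_slotStep_left h)]
      _ ≤ ∫⁻ h, ∫⁻ ξ, psi (dual (fun z => ξ (pt z)) g) h ∂(siteLaw 1 δ) ∂L :=
          lintegral_mono fun h => lintegral_mono fun ξ => psi_slot g ξ h
      _ = ∫⁻ ξ, ∫⁻ h, psi (dual (fun z => ξ (pt z)) g) h ∂L ∂(siteLaw 1 δ) :=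
          lintegral_lintegral_swap hm.aemeasurable
      _ ≤ ∫⁻ ξ, ENNReal.ofReal ((1 + 837 / 1000 * δ + 2000 * δ ^ 2) ^ k) *
            Z (dual (fun z => ξ (pt z)) g) ∂(siteLaw 1 δ) :=
          lintegral_mono fun ξ => ih _
      _ = ENNReal.ofReal ((1 + 837 / 1000 * δ + 2000 * δ ^ 2) ^ k) *
            ∫⁻ ξ, Z (dual (fun z => ξ (pt z)) g) ∂(siteLaw 1 δ) :=
          lintegral_const_mul _ (measurable_Z.comp (measurable_dual g))
      _ ≤ ENNReal.ofReal ((1 + 837 / 1000 * δ + 2000 * δ ^ 2) ^ k) *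
            (ENNReal.ofReal (1 + 837 / 1000 * δ + 2000 * δ ^ 2) * Z g) :=
          mul_le_mul_right (Z_step δ g) _
      _ = _ := by
          rw [← mul_assoc, ← ENNReal.ofReal_mul (pow_nonneg hΛ.le _), pow_succ _ k]

end Pool.MP4bb68cOne
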