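import Mathlib
import Pool.Agent.Work.MP_4bb68c_pr.Upper
import Pool.Agent.Work.MP_4bb68c_d1.UMean

/-!
# The mean height from the initial function `x`: conclusion
-/

open MeasureTheory ProbabilityTheory Filter Topology
open scoped NNReal ENNReal

namespace Pool.MP4bb68cOne

open Pool.MP4bb68c

theorem E_eq_exp (n : ℤ) : E n = Real.exp (Real.log (4 / 3) * n) := by
  unfold E
  rw [Real.exp_mul, Real.exp_log (by norm_num), Real.rpow_intCast]

theorem E_neg_nat (n : ℕ) : E (-(n : ℤ)) = (3 / 4) ^ n := by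
  unfold E
  rw [zpow_neg, zpow_natCast, ← inv_pow]
  norm_num

/-- The starting weights. -/
def g0 (y : ℤ) : ℤ := -2 * |y|

attribute [local irreducible] E F G UCert.TF UCert.TG

theorem summable_g0 : Summable (fun x => E x * E (g0 x)) := by
  have hgeo : Summable (fun n : ℕ => ((3 : ℝ) / 4) ^ n) :=
    summable_geometric_of_lt_one (by norm_num) (by norm_num)
  refine Summable.of_nat_of_neg ?_ ?_
  · refine hgeo.congr fun n => ?_
    rw [← E_add, ← E_neg_nat]
    congr 1
    unfold g0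
    rw [abs_of_nonneg (by omega)]
    ring
  · refine Summable.of_nonneg_of_le (fun n => mul_nonneg (E_pos _).le (E_pos _).le) ?_ hgeo
    intro n
    rw [← E_add, ← E_neg_nat]
    apply E_mono
    unfold g0
    rw [abs_neg, abs_of_nonneg (by omega)]
    omega

theorem Z_g0 : ∃ U : ℝ, 0 ≤ U ∧ Z g0 = ENNReal.ofReal U := by
  have h1 := summable_Phi summable_g0.hasSum (fun _ => ∅)
  simp_rw [Phi_empty] at h1
  have h2 : ∀ x, 0 ≤ E x * F (g0 x) (g0 (x + 1)) (g0 (x + 2)) := fun x =>
    mul_nonneg (E_pos x).le (F_nonneg _ _ _)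
  refine ⟨∑' x, E x * F (g0 x) (g0 (x + 1)) (g0 (x + 2)), tsum_nonneg h2, ?_⟩
  rw [ENNReal.ofReal_tsum_of_nonneg h2 h1]
  rfl

theorem log_pos' : 0 < Real.log (4 / 3) := Real.log_pos (by norm_num)

/-- The growth from the initial function `x`. -/
theorem mean_tilt_le : ∃ C : ℝ, ∀ (δ : ℝ≥0) (k : ℕ),
    ∫ h, (h 0 : ℝ) ∂(lawK 1 (List.replicate k δ) (fun x => x 0)) ≤
      (837 / 1000 + 2000 * δ) / Real.log (4 / 3) * (k * (δ : ℝ)) + C := by
  obtain ⟨U, hU0, hU⟩ := Z_g0
  set lam : ℝ := Real.log (4 / 3) with hlam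
  have hlam0 : 0 < lam := log_pos'
  refine ⟨Real.log (U + 1) / lam, fun δ k => ?_⟩
  set f : Height 1 := fun x => x 0 with hf
  set Λ : ℝ := 1 + 837 / 1000 * (δ : ℝ) + 2000 * (δ : ℝ) ^ 2 with hΛ
  have hΛ1 : 1 ≤ Λ := by
    have : 0 ≤ 837 / 1000 * (δ : ℝ) + 2000 * (δ : ℝ) ^ 2 := by positivity
    rw [hΛ]
    linarith
  have hΛ0 : 0 < Λ := by linarith
  have hie : Integrable (fun h : Height 1 => Real.exp (lam * h 0))
      (lawK 1 (List.replicate k δ) f) :=
    integrable_lawK_of_mono (measurable_exp_height lam 0) (monotone_exp_height hlam0 0) _ _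
  have hmom : ∫ h, Real.exp (lam * h 0) ∂(lawK 1 (List.replicate k δ) f) ≤
      Λ ^ k * (U + 1) := by
    have h1 := moment_le δ k g0
    rw [hU, ← ENNReal.ofReal_mul (pow_nonneg hΛ0.le _)] at h1
    have h2 : ∫⁻ h, ENNReal.ofReal (Real.exp (lam * h 0)) ∂(lawK 1 (List.replicate k δ) f) ≤
        ∫⁻ h, psi g0 h ∂(lawK 1 (List.replicate k δ) f) := by
      refine lintegral_mono fun h => ?_
      rw [← E_eq_exp]
      refine le_psi g0 h (y := 0) ?_
      have : g0 0 = 0 := by simp [g0]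
      rw [this, ← zero_eq_pt, zero_add]
    rw [← ofReal_integral_eq_lintegral_ofReal hie
      (Filter.Eventually.of_forall fun h => (Real.exp_pos _).le)] at h2
    have h3 := (ENNReal.ofReal_le_ofReal_iff (by positivity)).1 (h2.trans h1)
    have h4 : Λ ^ k * U ≤ Λ ^ k * (U + 1) := by
      apply mul_le_mul_of_nonneg_left _ (pow_nonneg hΛ0.le _)
      linarith
    exact h3.trans h4
  set s : ℝ := k * Real.log Λ + Real.log (U + 1) with hs
  have hexps : Real.exp s = Λ ^ k * (U + 1) := by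
    rw [hs, Real.exp_add, Real.exp_log (by linarith), ← Real.log_pow, Real.exp_log (by positivity)]
  have hi := integrable_height (List.replicate k δ) f 0
  have h1 : ∫ h, lam * (h 0 : ℝ) ∂(lawK 1 (List.replicate k δ) f) ≤
      ∫ h, (Real.exp (-s) * Real.exp (lam * h 0) + (s - 1))
        ∂(lawK 1 (List.replicate k δ) f) := by
    refine integral_mono (hi.const_mul _) ((hie.const_mul _).add (integrable_const _)) ?_
    intro h
    have := Real.add_one_le_exp (lam * h 0 - s)
    simp only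
    rw [← Real.exp_add]
    have e : -s + lam * h 0 = lam * h 0 - s := by ring
    rw [e]
    linarith
  rw [integral_const_mul, integral_add (hie.const_mul _) (integrable_const _),
    integral_const_mul, integral_const, probReal_univ, one_smul] at h1
  have h2 : Real.exp (-s) * ∫ h, Real.exp (lam * h 0) ∂(lawK 1 (List.replicate k δ) f) ≤ 1 := by
    have := mul_le_mul_of_nonneg_left hmom (Real.exp_pos (-s)).le
    rwa [← hexps, ← Real.exp_add, neg_add_cancel, Real.exp_zero] at this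
  have h3 : lam * ∫ h, (h 0 : ℝ) ∂(lawK 1 (List.replicate k δ) f) ≤ s := by linarith
  have h4 : ∫ h, (h 0 : ℝ) ∂(lawK 1 (List.replicate k δ) f) ≤ s / lam := by
    rw [le_div_iff₀ hlam0, mul_comm]
    exact h3
  have h5 : Real.log Λ ≤ Λ - 1 := by
    have := Real.log_le_sub_one_of_pos hΛ0
    exact this
  refine h4.trans ?_
  have h6 : s ≤ (837 / 1000 + 2000 * δ) * (k * (δ : ℝ)) + Real.log (U + 1) := by
    rw [hs]
    have h7 : (k : ℝ) * Real.log Λ ≤ k * (Λ - 1) :=
      mul_le_mul_of_nonneg_left h5 (Nat.cast_nonneg _)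
    have h8 : (k : ℝ) * (Λ - 1) = (837 / 1000 + 2000 * δ) * (k * (δ : ℝ)) := by
      rw [hΛ]
      ring
    linarith
  calc s / lam ≤ ((837 / 1000 + 2000 * δ) * (k * (δ : ℝ)) + Real.log (U + 1)) / lam :=
        div_le_div_of_nonneg_right h6 hlam0.le
    _ = _ := by ring

end Pool.MP4bb68cOne
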