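import Mathlib
import Pool.Agent.Work.MP_4bb68c_pr.Defs
import Pool.Agent.Work.MP_4bb68c_pr.Run
import Pool.Agent.Work.MP_4bb68c_pr.Chain
import Pool.Agent.Work.MP_4bb68c_pr.Upper
import Pool.Agent.Work.MP_4bb68c_pr.Avg
import Pool.Agent.Work.MP_4bb68c_pr.Tight
import Pool.Agent.Work.MP_4bb68c_pr.Stat
import Pool.Agent.Work.MP_4bb68c_pr.Limit
import Pool.Agent.Work.MP_4bb68c_pr.Slope
import Pool.Agent.Work.MP_4bb68c_pr.Family
import Pool.Agent.Work.MP_4bb68c_d1.Basic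
import Pool.Agent.Work.MP_4bb68c_d1.UTilt
import Pool.Agent.Work.MP_4bb68c_d1.LFinal
import Pool.Agent.Work.MP_4bb68c_d1.GrowAdd

/-!
# Stationary laws with small slopes in dimension one
-/

open MeasureTheory ProbabilityTheory Filter Topology
open scoped NNReal ENNReal

namespace Pool.MP4bb68cOne

open Pool.MP4bb68c LCert

theorem log_lower : (28765 : ℝ) / 100000 ≤ Real.log (4 / 3) := by
  rw [Real.le_log_iff_exp_le (by norm_num)]
  have h := Real.exp_bound' (x := 28765 / 100000) (by norm_num) (by norm_num) (n := 7)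
    (by norm_num)
  refine h.trans ?_
  norm_num [Finset.sum_range_succ, Nat.factorial]

/-- The number of slots per unit of time. -/
def qq : ℕ := 10 ^ 9

theorem p_bounds : 1 - 1 / 10 ^ 8 ≤ (10 : ℝ) ^ 9 * (1 - Real.exp (-(1 / (qq : ℝ)))) ∧
    (10 : ℝ) ^ 9 * (1 - Real.exp (-(1 / (qq : ℝ)))) ≤ 1 := by
  have hq : (qq : ℝ) = 10 ^ 9 := by unfold qq; norm_num
  rw [hq]
  set x : ℝ := 1 / 10 ^ 9 with hx
  have hx0 : 0 ≤ x := by rw [hx]; positivity
  have h1 := exp_neg_le hx0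
  have h2 := Real.add_one_le_exp (-x)
  have h3 : x ^ 2 / 2 ≤ 1 / 10 ^ 17 := by rw [hx]; norm_num
  have h4 : (10 : ℝ) ^ 9 * x = 1 := by rw [hx]; norm_num
  constructor <;> nlinarith

theorem r_bound : 1 - 1 / 10 ^ 6 ≤ (10 : ℝ) ^ 9 * rq qq := by
  obtain ⟨h1, h2⟩ := p_bounds
  unfold rq rr
  set p : ℝ := 1 - Real.exp (-(1 / (qq : ℝ))) with hp
  have hp0 : 0 ≤ p := by nlinarith
  have hp1 : p ≤ 1 / 10 ^ 9 := by
    rw [le_div_iff₀ (by positivity)]
    linarith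
  have h3 : 1 + 9 * (-p) ≤ (1 - p) ^ 9 := by
    have := one_add_mul_le_pow (a := -p) (by linarith [show (1 : ℝ) / 10 ^ 9 ≤ 1 by norm_num]) 9
    have e : (1 + -p) ^ 9 = (1 - p) ^ 9 := by ring
    rw [e] at this
    exact_mod_cast this
  have h5 : 1 - 1 / 10 ^ 8 ≤ (1 - p) ^ 9 := by
    have : 9 * p ≤ 1 / 10 ^ 8 := by
      have : (9 : ℝ) * (1 / 10 ^ 9) ≤ 1 / 10 ^ 8 := by norm_num
      linarith
    linarith
  have h6 : (1 - 1 / 10 ^ 8) * (1 - 1 / 10 ^ 8) ≤ (10 : ℝ) ^ 9 * p * (1 - p) ^ 9 :=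
    mul_le_mul h1 h5 (by norm_num) (by linarith [show (0 : ℝ) ≤ 1 - 1 / 10 ^ 8 by norm_num])
  have h7 : (1 : ℝ) - 1 / 10 ^ 6 ≤ (1 - 1 / 10 ^ 8) * (1 - 1 / 10 ^ 8) := by norm_num
  linarith

theorem tilt_bound : ∃ C : ℝ, 0 ≤ C ∧ ∀ n i, mh (d := 1) qq n (fun x => x 0) i 0 ≤
    (837002 / 1000000) / Real.log (4 / 3) * (i * (dl qq n : ℝ)) + C := by
  obtain ⟨C, hC⟩ := mean_tilt_le
  refine ⟨|C|, abs_nonneg C, fun n i => ?_⟩
  have h1 := hC (dl qq n) i
  have h2 : ((dl qq n : ℝ≥0) : ℝ) ≤ 1 / 10 ^ 9 := by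
    unfold dl qq
    push_cast
    have h3 : (1 : ℝ) ≤ 2 ^ n := one_le_pow₀ (by norm_num)
    apply one_div_le_one_div_of_le (by norm_num)
    nlinarith
  have h3 : (837 / 1000 + 2000 * ((dl qq n : ℝ≥0) : ℝ)) / Real.log (4 / 3) ≤
      (837002 / 1000000) / Real.log (4 / 3) := by
    apply div_le_div_of_nonneg_right _ log_pos'.le
    have : (2000 : ℝ) * (1 / 10 ^ 9) ≤ 2 / 1000000 := by norm_num
    linarith
  have h4 : 0 ≤ (i : ℝ) * (dl qq n : ℝ) := mul_nonneg (Nat.cast_nonneg _) (dl qq n).2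
  have h5 := mul_le_mul_of_nonneg_right h3 h4
  have h6 := le_abs_self C
  have h7 : mh (d := 1) qq n (fun x => x 0) i 0 =
      ∫ h, (h 0 : ℝ) ∂(lawK 1 (List.replicate i (dl qq n)) (fun x => x 0)) := rfl
  rw [h7]
  linarith

theorem crude (f : Height 1) (hf : f = (fun _ => 0) ∨ f = fun x => x 0) (hf0 : f 0 = 0) :
    ∀ n i, mh qq n f i 0 ≤ (2 * Real.exp 1 + 2 * (1 : ℕ)) / 1 * (i * (dl qq n : ℝ)) := by
  intro n i
  have h := mean_le (d := 1) (0 : Fin 1) (lam := 1) one_pos f hf (dl qq n) i 0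
  rw [hf0] at h
  have h7 : mh qq n f i 0 =
      ∫ h, (h 0 : ℝ) ∂(lawK 1 (List.replicate i (dl qq n)) f) := rfl
  rw [h7]
  simpa using h

theorem exists_big_slope : ∃ r : ℝ, 1 / 100 ≤ r ∧
    (∃ μ : Measure (Height 1), HasSlope μ (fun _ => r)) ∧
    (∃ μ : Measure (Height 1), HasSlope μ (fun _ => -r)) := by
  have hSCv : (SC : ℝ) = 1000000 := by norm_num [SC]
  have hLLv : (LCert.LL : ℝ) = 1922100 := by norm_num [LCert.LL]
  have hPMv : (PM : ℝ) ≤ 3000000 := by norm_num [PM]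
  have hq : 0 < qq := by norm_num [qq]
  have hq10 : 10 ≤ qq := by norm_num [qq]
  have hqv : (qq : ℝ) = 10 ^ 9 := by norm_num [qq]
  set V₀ : ℝ := (2 * Real.exp 1 + 2 * (1 : ℕ)) / 1 with hV₀def
  have hV₀0 : 0 ≤ V₀ := by positivity
  set f : Height 1 := fun x => x 0 with hf
  have hfa : IsAdd f := isAdd_tilt 0
  have hV₀ : ∀ n i, mh qq n f i 0 ≤ V₀ * (i * (dl qq n : ℝ)) := crude f (Or.inr rfl) rfl
  obtain ⟨μ, hμp, hμ⟩ := exists_limit hfa hq hV₀0 hV₀
  have h1 := hasSlope_of_isLim hfa hq hV₀0 hV₀ hμ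
  set r : ℝ := mean μ (Pi.single 0 1) with hr
  have hslope : (fun i : Fin 1 => mean μ (Pi.single i 1)) = fun _ => r := by
    ext i
    rw [Fin.eq_zero i]
  rw [hslope] at h1
  have hmean : ∀ z : Site 1, mean μ z = r * z 0 := by
    intro z
    have h2 := h1.mean z
    change ∫ g, (g z : ℝ) ∂μ = r * z 0
    rw [h2]
    simp
  obtain ⟨C, hC0, hC⟩ := tilt_bound
  set V : ℝ := (837002 / 1000000) / Real.log (4 / 3) with hV
  have hV0 : 0 ≤ V := div_nonneg (by norm_num) log_pos'.le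
  have hVle : V ≤ 29098 / 10000 := by
    rw [hV, div_le_iff₀ log_pos']
    have := log_lower
    nlinarith
  set N : ℕ := 10 ^ 13 with hN
  obtain ⟨w, w0, w1, w2, w3⟩ := weights_flat hq10 (by rw [hSCv]; norm_num) N
  obtain ⟨v, v0, v1, v2, v3⟩ := weights_greedy hq N 0
  simp only [mul_one] at v1
  set A : ℝ := ((N : ℝ) * rq qq * LCert.LL - PM) / SC with hA
  have hg := growth_ineq_add hfa hq hV₀0 hV₀ hV0 hC N A w v w0 v0 w1 v1 w3
    (fun n f => v3 n f) hμ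
  set B : ℝ := N * (1 - Real.exp (-(1 / (qq : ℝ)))) with hB
  have e0 : (v.sum fun z a => a * (z 0 : ℝ)) = B := by rw [v2]; simp
  have e1 : (w.sum fun z a => a * mean μ z) = 0 := by
    have : (w.sum fun z a => a * mean μ z) = r * (w.sum fun z a => a * (z 0 : ℝ)) := by
      unfold Finsupp.sum
      rw [Finset.mul_sum]
      refine Finset.sum_congr rfl fun z _ => ?_
      simp only [hmean]
      ring
    rw [this, w2, mul_zero]
  have e2 : (v.sum fun z a => a * mean μ z) = r * B := by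
    rw [← e0]
    unfold Finsupp.sum
    rw [Finset.mul_sum]
    refine Finset.sum_congr rfl fun z _ => ?_
    simp only [hmean]
    ring
  have e3 : (v.sum fun z a => a * (f z : ℝ)) = B := e0
  rw [e1, e2, e3] at hg
  have hNv : (N : ℝ) = 10 ^ 4 * 10 ^ 9 := by rw [hN]; norm_num
  obtain ⟨p1, p2⟩ := p_bounds
  have hB1 : 10 ^ 4 * (1 - 1 / 10 ^ 8) ≤ B := by
    rw [hB, hNv]
    nlinarith
  have hB2 : B ≤ 10 ^ 4 := by
    rw [hB, hNv]
    nlinarith
  have hA1 : 10 ^ 4 * (1 - 1 / 10 ^ 6) * (19221 / 10000) - 3 ≤ A := by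
    rw [hA, hSCv, hLLv, hNv, le_div_iff₀ (by norm_num)]
    have := r_bound
    nlinarith
  have hNq : (N : ℝ) / qq = 10 ^ 4 := by
    rw [hqv, hNv]
    norm_num
  rw [hNq] at hg
  have hrB : 1 / 100 * B ≤ r * B := by
    have : V * 10 ^ 4 ≤ 29098 := by linarith
    nlinarith
  have hBpos : 0 < B := by
    have : (0 : ℝ) < 10 ^ 4 * (1 - 1 / 10 ^ 8) := by norm_num
    linarith
  refine ⟨r, le_of_mul_le_mul_right hrB hBpos, ⟨μ, h1⟩, ?_⟩
  have hμ' : IsProbabilityMeasure (μ.map reflectH) :=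
    Measure.isProbabilityMeasure_map continuous_reflectH.aemeasurable
  have h6 := hasSlope_of_isLim (isAdd_reflectH hfa) hq hV₀0
    (fun n i => by rw [mh_reflectH]; exact hV₀ n i) (IsLim.reflect hμ)
  refine ⟨μ.map reflectH, ?_⟩
  convert h6 using 1
  ext i
  have h7 : mean (μ.map reflectH) (Pi.single i 1) = mean μ (-Pi.single i 1) := by
    unfold mean
    rw [integral_map continuous_reflectH.aemeasurable
      (measurable_height_real _).aestronglyMeasurable]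
    rfl
  rw [h7, mean_neg h1, Fin.eq_zero i]

/-- Stationary laws with all small slopes in dimension one. -/
theorem exists_slopes_one (v : Fin 1 → ℝ) (hv : ∑ i, |v i| ≤ 1 / 100) :
    ∃ μ : Measure (Height 1), HasSlope μ v := by
  obtain ⟨r, hr, h1, h2⟩ := exists_big_slope
  have hr0 : 0 < r := by linarith [show (0 : ℝ) < 1 / 100 by norm_num]
  have hv0 : |v 0| ≤ r := by
    have : ∑ i, |v i| = |v 0| := by simp
    linarith
  obtain ⟨ha, hb⟩ := abs_le.1 hv0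
  have h3 := convex_slopes (d := 1) h1 h2 (a := (1 + v 0 / r) / 2) (b := (1 - v 0 / r) / 2)
    (by
      have : -1 ≤ v 0 / r := by rw [le_div_iff₀ hr0]; linarith
      linarith)
    (by
      have : v 0 / r ≤ 1 := by rw [div_le_one hr0]; exact hb
      linarith) (by ring)
  have e : ((1 + v 0 / r) / 2) • (fun _ : Fin 1 => r) +
      ((1 - v 0 / r) / 2) • (fun _ : Fin 1 => -r) = v := by
    ext i
    rw [Fin.eq_zero i]
    simp only [Pi.add_apply, Pi.smul_apply, smul_eq_mul]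
    field_simp
    ring
  rw [e] at h3
  exact h3

end Pool.MP4bb68cOne
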